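import Mathlib

/-!
# Irreducibility is detected modulo a power of `ℓ`
-/

set_option linter.unusedSectionVars false
set_option linter.unusedVariables false

namespace Pool.Agent.Helper46.GG

open Matrix

section Linear

variable {ι F : Type*} [Fintype ι] [DecidableEq ι] [Field F]

/-- The orthogonal for the trace form. -/
def perp (W : Submodule F (Matrix ι ι F)) : Submodule F (Matrix ι ι F) where
  carrier := {L | ∀ w ∈ W, trace (L * w) = 0}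
  add_mem' := by
    intro L L' h h' w hw
    rw [add_mul, trace_add, h w hw, h' w hw, add_zero]
  zero_mem' := by
    intro w _
    rw [zero_mul, trace_zero]
  smul_mem' := by
    intro c L h w hw
    rw [smul_mul_assoc, trace_smul, h w hw, smul_zero]

lemma mem_perp {W : Submodule F (Matrix ι ι F)} {L : Matrix ι ι F} :
    L ∈ perp W ↔ ∀ w ∈ W, trace (L * w) = 0 := Iff.rfl

lemma exists_perp {W : Submodule F (Matrix ι ι F)} {y : Matrix ι ι F} (hy : y ∉ W) :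
    ∃ L ∈ perp W, trace (L * y) ≠ 0 := by
  obtain ⟨f, hf, hfW⟩ := Submodule.exists_dual_map_eq_bot_of_notMem hy inferInstance
  let L : Matrix ι ι F := Matrix.of fun j i ↦ f (Matrix.single i j 1)
  have hL : ∀ w, trace (L * w) = f w := by
    intro w
    have h1 : w = ∑ i, ∑ j, w i j • Matrix.single i j (1 : F) := by
      conv_lhs => rw [Matrix.matrix_eq_sum_single w]
      simp
    conv_rhs => rw [h1]
    simp only [map_sum, map_smul, smul_eq_mul]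
    rw [trace, Finset.sum_comm]
    refine Finset.sum_congr rfl fun j _ ↦ ?_
    rw [diag_apply, Matrix.mul_apply]
    refine Finset.sum_congr rfl fun i _ ↦ ?_
    exact mul_comm _ _
  refine ⟨L, ?_, by rw [hL]; exact hf⟩
  intro w hw
  rw [hL]
  have : f w ∈ W.map f := ⟨w, hw, rfl⟩
  rw [hfW] at this
  simpa using this

end Linear

section Padic

variable {r : ℕ} {ℓ : ℕ} [Fact ℓ.Prime]

/-- The inclusion of the integral matrices. -/
noncomputable def co (x : Matrix (Fin r) (Fin r) ℤ_[ℓ]) : Matrix (Fin r) (Fin r) ℚ_[ℓ] :=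
  x.map (algebraMap ℤ_[ℓ] ℚ_[ℓ])

lemma co_mul (x y : Matrix (Fin r) (Fin r) ℤ_[ℓ]) : co (x * y) = co x * co y := by
  unfold co
  rw [Matrix.map_mul]

lemma trace_co (x : Matrix (Fin r) (Fin r) ℤ_[ℓ]) :
    trace (co x) = algebraMap ℤ_[ℓ] ℚ_[ℓ] (trace x) :=
  (AddMonoidHom.map_trace (algebraMap ℤ_[ℓ] ℚ_[ℓ]) x).symm

lemma continuous_co : Continuous (co : Matrix (Fin r) (Fin r) ℤ_[ℓ] → _) := by
  refine continuous_matrix fun i j ↦ ?_
  have h1 : Continuous fun x : Matrix (Fin r) (Fin r) ℤ_[ℓ] ↦ x i j := by fun_prop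
  exact (continuous_subtype_val).comp h1

/-- The matrices in a subspace with some entry equal to one. -/
def prim (W : Submodule ℚ_[ℓ] (Matrix (Fin r) (Fin r) ℚ_[ℓ])) :
    Set (Matrix (Fin r) (Fin r) ℤ_[ℓ]) := {x | co x ∈ W ∧ ∃ i j, x i j = 1}

lemma isCompact_prim (W : Submodule ℚ_[ℓ] (Matrix (Fin r) (Fin r) ℚ_[ℓ])) :
    IsCompact (prim W) := by
  have : CompactSpace (Matrix (Fin r) (Fin r) ℤ_[ℓ]) :=
    inferInstanceAs (CompactSpace (Fin r → Fin r → ℤ_[ℓ]))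
  apply IsClosed.isCompact
  have h1 : IsClosed (W : Set (Matrix (Fin r) (Fin r) ℚ_[ℓ])) :=
    Submodule.closed_of_finiteDimensional W
  have h2 : IsClosed {x : Matrix (Fin r) (Fin r) ℤ_[ℓ] | ∃ i j, x i j = 1} := by
    have : {x : Matrix (Fin r) (Fin r) ℤ_[ℓ] | ∃ i j, x i j = 1} =
        ⋃ i, ⋃ j, {x | x i j = 1} := by
      ext x; simp
    rw [this]
    refine isClosed_iUnion_of_finite fun i ↦ isClosed_iUnion_of_finite fun j ↦ ?_
    exact isClosed_eq (by fun_prop) continuous_const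
  exact (h1.preimage continuous_co).inter h2

lemma exists_prim {W : Submodule ℚ_[ℓ] (Matrix (Fin r) (Fin r) ℚ_[ℓ])}
    {x : Matrix (Fin r) (Fin r) ℚ_[ℓ]} (hx : x ∈ W) (hx0 : x ≠ 0) :
    ∃ y ∈ prim W, ∃ c : ℚ_[ℓ], c ≠ 0 ∧ co y = c • x := by
  obtain ⟨i₀, j₀, h0⟩ : ∃ i j, x i j ≠ 0 := by
    by_contra! h
    exact hx0 (by ext i j; exact h i j)
  obtain ⟨p, -, hp⟩ := Finset.exists_max_image (Finset.univ : Finset (Fin r × Fin r))
    (fun p ↦ ‖x p.1 p.2‖) ⟨(i₀, j₀), Finset.mem_univ _⟩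
  have hp0 : x p.1 p.2 ≠ 0 := by
    intro h
    have := hp (i₀, j₀) (Finset.mem_univ _)
    simp only [h, norm_zero] at this
    exact h0 (norm_le_zero_iff.mp this)
  set c := (x p.1 p.2)⁻¹ with hc
  have hc0 : c ≠ 0 := inv_ne_zero hp0
  have hle : ∀ i j, ‖c * x i j‖ ≤ 1 := by
    intro i j
    rw [norm_mul, hc, norm_inv]
    have h1 := hp (i, j) (Finset.mem_univ _)
    simp only at h1
    have h2 : 0 < ‖x p.1 p.2‖ := norm_pos_iff.mpr hp0
    rw [inv_mul_le_iff₀ h2, mul_one]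
    exact h1
  let y : Matrix (Fin r) (Fin r) ℤ_[ℓ] := Matrix.of fun i j ↦ ⟨c * x i j, hle i j⟩
  have hy : co y = c • x := by
    ext i j
    rfl
  refine ⟨y, ⟨by rw [hy]; exact W.smul_mem c hx, p.1, p.2, ?_⟩, c, hc0, hy⟩
  apply Subtype.ext
  change c * x p.1 p.2 = 1
  exact inv_mul_cancel₀ hp0

/-- The matrix coefficient. -/
noncomputable def mcoef (A A' : Matrix (Fin r) (Fin r) ℤ_[ℓ])
    (p : Matrix (Fin r) (Fin r) ℤ_[ℓ] × Matrix (Fin r) (Fin r) ℤ_[ℓ]) : ℤ_[ℓ] :=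
  trace (p.2 * (A * p.1 * A'))

lemma continuous_mcoef (A A' : Matrix (Fin r) (Fin r) ℤ_[ℓ]) : Continuous (mcoef A A') := by
  unfold mcoef
  refine Continuous.matrix_trace ?_
  refine Continuous.matrix_mul continuous_snd ?_
  refine Continuous.matrix_mul (Continuous.matrix_mul continuous_const continuous_fst)
    continuous_const

lemma mcoef_map (A A' B B' : Matrix (Fin r) (Fin r) ℤ_[ℓ]) (k : ℕ)
    (h : A.map (PadicInt.toZModPow k) = B.map (PadicInt.toZModPow k))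
    (h' : A'.map (PadicInt.toZModPow k) = B'.map (PadicInt.toZModPow k))
    (p : Matrix (Fin r) (Fin r) ℤ_[ℓ] × Matrix (Fin r) (Fin r) ℤ_[ℓ]) :
    PadicInt.toZModPow k (mcoef A A' p) = PadicInt.toZModPow k (mcoef B B' p) := by
  unfold mcoef
  rw [AddMonoidHom.map_trace, AddMonoidHom.map_trace, Matrix.map_mul, Matrix.map_mul,
    Matrix.map_mul, Matrix.map_mul, Matrix.map_mul, Matrix.map_mul, h, h']

/-- The matrix over the `ℓ`-adic integers of an integral matrix. -/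
noncomputable def toZ (ℓ : ℕ) [Fact ℓ.Prime] (γ : GL (Fin r) ℤ) : Matrix (Fin r) (Fin r) ℤ_[ℓ] :=
  (γ : Matrix (Fin r) (Fin r) ℤ).map (Int.cast : ℤ → ℤ_[ℓ])

lemma toZ_mul (γ γ' : GL (Fin r) ℤ) : toZ ℓ (γ * γ') = toZ ℓ γ * toZ ℓ γ' := by
  unfold toZ
  rw [Units.val_mul]
  exact Matrix.map_mul (f := Int.castRingHom ℤ_[ℓ])

lemma toZ_one : toZ ℓ (1 : GL (Fin r) ℤ) = 1 := by
  unfold toZ
  rw [Units.val_one]
  exact Matrix.map_one _ (Int.cast_zero) (Int.cast_one)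

lemma toZ_map (γ : GL (Fin r) ℤ) (k : ℕ) : (toZ ℓ γ).map (PadicInt.toZModPow k) =
    (γ : Matrix (Fin r) (Fin r) ℤ).map (Int.cast : ℤ → ZMod (ℓ ^ k)) := by
  unfold toZ
  ext i j
  simp [Matrix.map_apply]

/-- The congruence passes to the inverses. -/
lemma congr_inv {k : ℕ} {g : GL (Fin r) ℤ_[ℓ]} {γ : GL (Fin r) ℤ}
    (h : (g : Matrix (Fin r) (Fin r) ℤ_[ℓ]).map (PadicInt.toZModPow k) =
        (γ : Matrix (Fin r) (Fin r) ℤ).map (Int.cast : ℤ → ZMod (ℓ ^ k))) :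
    ((g⁻¹ : GL (Fin r) ℤ_[ℓ]) : Matrix (Fin r) (Fin r) ℤ_[ℓ]).map (PadicInt.toZModPow k) =
        ((γ⁻¹ : GL (Fin r) ℤ) : Matrix (Fin r) (Fin r) ℤ).map (Int.cast : ℤ → ZMod (ℓ ^ k)) := by
  rw [← toZ_map] at h ⊢
  have h1 : ((g⁻¹ : GL (Fin r) ℤ_[ℓ]) : Matrix (Fin r) (Fin r) ℤ_[ℓ]).map
      (PadicInt.toZModPow k) * (g : Matrix (Fin r) (Fin r) ℤ_[ℓ]).map (PadicInt.toZModPow k) =
      1 := by
    rw [← Matrix.map_mul, ← Units.val_mul, inv_mul_cancel, Units.val_one]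
    exact Matrix.map_one _ (map_zero _) (map_one _)
  have h2 : (g : Matrix (Fin r) (Fin r) ℤ_[ℓ]).map (PadicInt.toZModPow k) *
      (toZ ℓ γ⁻¹).map (PadicInt.toZModPow k) = 1 := by
    rw [h, ← Matrix.map_mul, ← toZ_mul, mul_inv_cancel, toZ_one]
    exact Matrix.map_one _ (map_zero _) (map_one _)
  exact left_inv_eq_right_inv h1 h2

/-- Irreducibility of the action by conjugation on a space of matrices is detected modulo a power
of `ℓ`. -/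
theorem exists_level_irr {𝔰 : Submodule ℚ_[ℓ] (Matrix (Fin r) (Fin r) ℚ_[ℓ])}
    {Γ : Subgroup (GL (Fin r) ℤ)}
    (hstab : ∀ γ ∈ Γ, ∀ w ∈ 𝔰, co (toZ ℓ γ) * w * co (toZ ℓ γ⁻¹) ∈ 𝔰)
    (hirr : ∀ W : Submodule ℚ_[ℓ] (Matrix (Fin r) (Fin r) ℚ_[ℓ]), W ≤ 𝔰 →
      (∀ γ ∈ Γ, ∀ w ∈ W, co (toZ ℓ γ) * w * co (toZ ℓ γ⁻¹) ∈ W) → W = ⊥ ∨ W = 𝔰) :
    ∃ k : ℕ, ∀ k', k ≤ k' → ∀ G : Subgroup (GL (Fin r) ℤ_[ℓ]),
      (∀ γ ∈ Γ, ∃ g ∈ G, (g : Matrix (Fin r) (Fin r) ℤ_[ℓ]).map (PadicInt.toZModPow k') =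
        (γ : Matrix (Fin r) (Fin r) ℤ).map (Int.cast : ℤ → ZMod (ℓ ^ k'))) →
      ∀ W : Submodule ℚ_[ℓ] (Matrix (Fin r) (Fin r) ℚ_[ℓ]), W ≤ 𝔰 →
      (∀ g ∈ G, ∀ w ∈ W, co (g : Matrix (Fin r) (Fin r) ℤ_[ℓ]) * w *
        co ((g⁻¹ : GL (Fin r) ℤ_[ℓ]) : Matrix (Fin r) (Fin r) ℤ_[ℓ]) ∈ W) → W = ⊥ ∨ W = 𝔰 := by
  obtain ⟨𝔠, h𝔠⟩ := (perp 𝔰).exists_isCompl
  -- nonvanishing of some coefficient
  have hne : ∀ p ∈ prim 𝔰 ×ˢ prim 𝔠, ∃ γ ∈ Γ, mcoef (toZ ℓ γ) (toZ ℓ γ⁻¹) p ≠ 0 := by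
    rintro ⟨x, L⟩ ⟨hx, hL⟩
    simp only at hx hL
    by_contra! hcon
    set W : Submodule ℚ_[ℓ] (Matrix (Fin r) (Fin r) ℚ_[ℓ]) :=
      Submodule.span ℚ_[ℓ] {w | ∃ γ ∈ Γ, w = co (toZ ℓ γ) * co x * co (toZ ℓ γ⁻¹)} with hW
    have hW1 : W ≤ 𝔰 := by
      rw [hW, Submodule.span_le]
      rintro _ ⟨γ, hγ, rfl⟩
      exact hstab γ hγ _ hx.1
    have hW2 : ∀ γ ∈ Γ, ∀ w ∈ W, co (toZ ℓ γ) * w * co (toZ ℓ γ⁻¹) ∈ W := by
      intro γ hγ w hw
      induction hw using Submodule.span_induction with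
      | mem w hw =>
        obtain ⟨γ', hγ', rfl⟩ := hw
        refine Submodule.subset_span ⟨γ * γ', Γ.mul_mem hγ hγ', ?_⟩
        rw [_root_.mul_inv_rev, toZ_mul, toZ_mul, co_mul, co_mul]
        simp only [Matrix.mul_assoc]
      | zero => rw [mul_zero, zero_mul]; exact W.zero_mem
      | add u v _ _ hu hv => rw [mul_add, add_mul]; exact W.add_mem hu hv
      | smul c u _ hu => rw [mul_smul_comm, smul_mul_assoc]; exact W.smul_mem c hu
    have hxW : co x ∈ W := by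
      refine Submodule.subset_span ⟨1, Γ.one_mem, ?_⟩
      have : co (1 : Matrix (Fin r) (Fin r) ℤ_[ℓ]) = 1 :=
        Matrix.map_one _ (map_zero _) (map_one _)
      rw [inv_one, toZ_one, this, Matrix.one_mul, Matrix.mul_one]
    have hx0 : co x ≠ 0 := by
      intro h
      obtain ⟨i, j, hij⟩ := hx.2
      have h1 := congrFun (congrFun h i) j
      simp only [co, Matrix.map_apply, hij, map_one, Matrix.zero_apply] at h1
      exact one_ne_zero h1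
    have hL0 : co L ≠ 0 := by
      intro h
      obtain ⟨i, j, hij⟩ := hL.2
      have h1 := congrFun (congrFun h i) j
      simp only [co, Matrix.map_apply, hij, map_one, Matrix.zero_apply] at h1
      exact one_ne_zero h1
    have hWeq : W = 𝔰 := by
      rcases hirr W hW1 hW2 with h | h
      · rw [h] at hxW
        exact absurd ((Submodule.mem_bot _).mp hxW) hx0
      · exact h
    have hLperp : co L ∈ perp 𝔰 := by
      rw [← hWeq]
      intro w hw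
      induction hw using Submodule.span_induction with
      | mem w hw =>
        obtain ⟨γ, hγ, rfl⟩ := hw
        rw [← co_mul, ← co_mul, ← co_mul, trace_co]
        have := hcon γ hγ
        unfold mcoef at this
        rw [this, map_zero]
      | zero => rw [mul_zero, trace_zero]
      | add u v _ _ hu hv => rw [mul_add, trace_add, hu, hv, add_zero]
      | smul c u _ hu => rw [mul_smul_comm, trace_smul, hu, smul_zero]
    have := h𝔠.disjoint.le_bot ⟨hLperp, hL.1⟩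
    exact hL0 ((Submodule.mem_bot _).mp this)
  -- compactness
  have hl1 : (1 : ℝ) < ℓ := by exact_mod_cast (Fact.out : ℓ.Prime).one_lt
  set U : ℕ → Set (Matrix (Fin r) (Fin r) ℤ_[ℓ] × Matrix (Fin r) (Fin r) ℤ_[ℓ]) := fun k ↦
    {p | ∃ γ ∈ Γ, (ℓ : ℝ) ^ (-(k : ℤ)) < ‖mcoef (toZ ℓ γ) (toZ ℓ γ⁻¹) p‖} with hU
  obtain ⟨k, hk⟩ := ((isCompact_prim 𝔰).prod (isCompact_prim 𝔠)).elim_directed_cover U
    (by
      intro k
      have : U k = ⋃ γ ∈ Γ, {p | (ℓ : ℝ) ^ (-(k : ℤ)) <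
          ‖mcoef (toZ ℓ γ) (toZ ℓ γ⁻¹) p‖} := by
        ext p; simp [hU]
      rw [this]
      refine isOpen_biUnion fun γ _ ↦ ?_
      exact isOpen_lt continuous_const (continuous_mcoef _ _).norm)
    (by
      intro p hp
      obtain ⟨γ, hγ, h⟩ := hne p hp
      have hpos : 0 < ‖mcoef (toZ ℓ γ) (toZ ℓ γ⁻¹) p‖ := norm_pos_iff.mpr h
      obtain ⟨k, hk⟩ := exists_pow_lt_of_lt_one hpos (inv_lt_one_of_one_lt₀ hl1)
      refine Set.mem_iUnion.mpr ⟨k, γ, hγ, ?_⟩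
      rwa [_root_.zpow_neg, _root_.zpow_natCast, ← _root_.inv_pow])
    (by
      refine directed_of_isDirected_le ?_
      intro a b hab p hp
      obtain ⟨γ, hγ, h⟩ := hp
      refine ⟨γ, hγ, lt_of_le_of_lt ?_ h⟩
      exact zpow_le_zpow_right₀ hl1.le (by omega))
  refine ⟨k, ?_⟩
  intro k' hk' G hG W hW1 hW2
  by_contra hcon
  push Not at hcon
  obtain ⟨hcon1, hcon2⟩ := hcon
  obtain ⟨x, hxW, hx0⟩ := (Submodule.ne_bot_iff _).mp hcon1
  obtain ⟨x', hx', c, hc, hcx⟩ := exists_prim (hW1 hxW) hx0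
  have hx'W : co x' ∈ W := by rw [hcx]; exact W.smul_mem c hxW
  obtain ⟨y, hy, hyW⟩ : ∃ y ∈ 𝔰, y ∉ W := by
    by_contra! h
    exact hcon2 (le_antisymm hW1 h)
  obtain ⟨L₀, hL₀, hL₀y⟩ := exists_perp hyW
  obtain ⟨L₁, hL₁, L₂, hL₂, hsum⟩ := Submodule.mem_sup.mp
    (h𝔠.sup_eq_top ▸ Submodule.mem_top : L₀ ∈ perp 𝔰 ⊔ 𝔠)
  have hL₂W : L₂ ∈ perp W := by
    have h1 : L₂ = L₀ - L₁ := by rw [← hsum]; abel
    rw [h1]
    exact (perp W).sub_mem hL₀ fun w hw ↦ hL₁ w (hW1 hw)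
  have hL₂0 : L₂ ≠ 0 := by
    rintro rfl
    rw [add_zero] at hsum
    apply hL₀y
    rw [← hsum]
    exact hL₁ y hy
  obtain ⟨L', hL', d, hd, hdL⟩ := exists_prim hL₂ hL₂0
  have hL'W : co L' ∈ perp W := by rw [hdL]; exact (perp W).smul_mem d hL₂W
  obtain ⟨γ, hγ, hlt⟩ := hk (⟨hx', hL'⟩ : (x', L') ∈ prim 𝔰 ×ˢ prim 𝔠)
  obtain ⟨g, hg, hgγ⟩ := hG γ hγ
  have hgi := congr_inv hgγ
  have h0 : mcoef (g : Matrix (Fin r) (Fin r) ℤ_[ℓ])
      ((g⁻¹ : GL (Fin r) ℤ_[ℓ]) : Matrix (Fin r) (Fin r) ℤ_[ℓ]) (x', L') = 0 := by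
    have h1 := hL'W _ (hW2 g hg _ hx'W)
    rw [← co_mul, ← co_mul, ← co_mul, trace_co] at h1
    exact (IsFractionRing.to_map_eq_zero_iff (K := ℚ_[ℓ])).mp h1
  rw [← toZ_map] at hgγ hgi
  have h1 := mcoef_map _ _ _ _ k' hgγ hgi (x', L')
  rw [h0, map_zero] at h1
  have h2 : mcoef (toZ ℓ γ) (toZ ℓ γ⁻¹) (x', L') ∈
      (Ideal.span {(ℓ : ℤ_[ℓ]) ^ k'} : Ideal ℤ_[ℓ]) := by
    rw [← PadicInt.ker_toZModPow, RingHom.mem_ker]
    exact h1.symm
  have h3 := (PadicInt.norm_le_pow_iff_mem_span_pow _ _).mpr h2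
  have h4 : (ℓ : ℝ) ^ (-(k' : ℤ)) ≤ (ℓ : ℝ) ^ (-(k : ℤ)) :=
    zpow_le_zpow_right₀ hl1.le (by omega)
  linarith

end Padic

end Pool.Agent.Helper46.GG
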