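import Mathlib
import Pool.Agent.Helper88.MT.Final

/-!
# The orthogonal Lie algebra is simple in dimension different from `4`

The proof uses the operators `x ↦ ∑ [v ∧ e_i, [v ∧ e^i, x]]`.
-/

set_option linter.unusedSectionVars false
set_option linter.unusedVariables false

namespace Pool.Agent.Helper46.GG

open Matrix Module Pool.Agent.Helper88.MT

variable {ι : Type*} [Fintype ι] [DecidableEq ι]
variable {F : Type*} [Field F] [CharZero F]
variable {ψ : Matrix ι ι F} {N : Submodule F (ι → F)}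

lemma bil_sum_left {κ : Type*} (s : Finset κ) (f : κ → ι → F) (w : ι → F) :
    bil ψ (∑ i ∈ s, f i) w = ∑ i ∈ s, bil ψ (f i) w := by
  unfold bil
  rw [sum_dotProduct]

/-- Dual bases of the orthogonal complement. -/
lemma exists_frame (hψ : ψᵀ = ψ) (hdet : ψ.det ≠ 0)
    (hN : ∀ v ∈ N, (∀ w ∈ N, bil ψ v w = 0) → v = 0) :
    ∃ (b b' : Fin (finrank F (orthS ψ N)) → (ι → F)),
      (∀ i, b i ∈ orthS ψ N) ∧ (∀ i, b' i ∈ orthS ψ N) ∧
      (∀ z ∈ orthS ψ N, ∑ i, bil ψ (b' i) z • b i = z) ∧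
      (∀ z ∈ orthS ψ N, ∑ i, bil ψ (b i) z • b' i = z) ∧
      ∑ i, bil ψ (b' i) (b i) = (finrank F (orthS ψ N) : F) := by
  have hT := nondeg_orthS hψ hdet hN
  set T := orthS ψ N with hTdef
  set B := (bilF ψ).restrict T with hB
  have hBsymm : B.IsSymm := ⟨fun x y ↦ by
    change bil ψ _ _ = bil ψ _ _
    exact bil_symm hψ _ _⟩
  have hBnd : B.Nondegenerate := by
    refine ⟨?_, ?_⟩
    · rintro ⟨v, hv⟩ h
      rw [Submodule.mk_eq_zero]
      exact hT v hv fun w hw ↦ h ⟨w, hw⟩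
    · rintro ⟨v, hv⟩ h
      rw [Submodule.mk_eq_zero]
      exact hT v hv fun w hw ↦ by rw [bil_symm hψ]; exact h ⟨w, hw⟩
  let b := finBasis F T
  let b' := B.dualBasis hBnd b
  have h1 : ∀ i j, B (b' i) (b j) = if j = i then 1 else 0 := fun i j ↦
    LinearMap.BilinForm.apply_dualBasis_left hBnd b i j
  have h2 : ∀ i j, B (b i) (b' j) = if i = j then 1 else 0 := fun i j ↦
    LinearMap.BilinForm.apply_dualBasis_right hBnd hBsymm b i j
  refine ⟨fun i ↦ (b i : ι → F), fun i ↦ (b' i : ι → F), fun i ↦ (b i).2, fun i ↦ (b' i).2,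
    ?_, ?_, ?_⟩
  · intro z hz
    have h3 : ∑ i, B (b' i) ⟨z, hz⟩ • b i = ⟨z, hz⟩ := by
      conv_rhs => rw [← b.sum_repr ⟨z, hz⟩]
      refine Finset.sum_congr rfl fun i _ ↦ ?_
      congr 1
      conv_lhs => rw [← b.sum_repr ⟨z, hz⟩]
      rw [map_sum, Finset.sum_eq_single i]
      · rw [map_smul, h1, if_pos rfl, smul_eq_mul, mul_one]
      · intro j _ hj
        rw [map_smul, h1, if_neg hj, smul_zero]
      · intro h; exact absurd (Finset.mem_univ i) h
    have h4 := congrArg (fun u : T ↦ (u : ι → F)) h3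
    simp only [Submodule.coe_sum, Submodule.coe_smul] at h4
    exact h4
  · intro z hz
    have h3 : ∑ i, B (b i) ⟨z, hz⟩ • b' i = ⟨z, hz⟩ := by
      conv_rhs => rw [← b'.sum_repr ⟨z, hz⟩]
      refine Finset.sum_congr rfl fun i _ ↦ ?_
      congr 1
      conv_lhs => rw [← b'.sum_repr ⟨z, hz⟩]
      rw [map_sum, Finset.sum_eq_single i]
      · rw [map_smul, h2, if_pos rfl, smul_eq_mul, mul_one]
      · intro j _ hj
        rw [map_smul, h2, if_neg (Ne.symm hj), smul_zero]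
      · intro h; exact absurd (Finset.mem_univ i) h
    have h4 := congrArg (fun u : T ↦ (u : ι → F)) h3
    simp only [Submodule.coe_sum, Submodule.coe_smul] at h4
    exact h4
  · have h3 : ∀ i, bil ψ (b' i : ι → F) (b i : ι → F) = 1 := by
      intro i
      have := h1 i i
      rw [if_pos rfl] at this
      exact this
    simp only [h3, Finset.sum_const, Finset.card_univ, Fintype.card_fin, nsmul_eq_mul, mul_one]

/-- The bracket of a skew matrix and an elementary one. -/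
lemma bracket_skewM (hψ : ψᵀ = ψ) {x : Matrix ι ι F}
    (hx : ∀ v w, bil ψ (x *ᵥ v) w = - bil ψ v (x *ᵥ w)) (a b : ι → F) :
    x * skewM ψ a b - skewM ψ a b * x = skewM ψ (x *ᵥ a) b + skewM ψ a (x *ᵥ b) := by
  apply eq_of_forall_mulVec
  intro v
  rw [sub_mulVec, add_mulVec, ← mulVec_mulVec, ← mulVec_mulVec, skewM_mulVec hψ, skewM_mulVec hψ,
    skewM_mulVec hψ, skewM_mulVec hψ, mulVec_sub, mulVec_smul, mulVec_smul, hx a v, hx b v]
  module

lemma skewM_skew (hψ : ψᵀ = ψ) (a b : ι → F) (v w : ι → F) :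
    bil ψ (skewM ψ a b *ᵥ v) w = - bil ψ v (skewM ψ a b *ᵥ w) := by
  rw [skewM_mulVec hψ, skewM_mulVec hψ, bil_sub_left, bil_smul_left, bil_smul_left,
      bil_sub_right, bil_smul_right, bil_smul_right, bil_symm hψ v b, bil_symm hψ v a]
  ring

lemma skewM_self (hψ : ψᵀ = ψ) (a : ι → F) : skewM ψ a a = 0 := by
  apply eq_of_forall_mulVec
  intro v
  rw [skewM_mulVec hψ, sub_self, zero_mulVec]

lemma skewM_swap (hψ : ψᵀ = ψ) (a b : ι → F) : skewM ψ a b = - skewM ψ b a := by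
  apply eq_of_forall_mulVec
  intro v
  rw [neg_mulVec, skewM_mulVec hψ, skewM_mulVec hψ, neg_sub]

lemma skewM_add_right (a b c : ι → F) : skewM ψ a (b + c) = skewM ψ a b + skewM ψ a c := by
  unfold skewM
  rw [mulVec_add, add_vecMulVec, vecMulVec_add]
  abel

lemma skewM_smul_right (a b : ι → F) (c : F) : skewM ψ a (c • b) = c • skewM ψ a b := by
  unfold skewM
  rw [mulVec_smul, smul_vecMulVec, vecMulVec_smul, smul_sub]

lemma skewM_add_left (a b c : ι → F) : skewM ψ (a + b) c = skewM ψ a c + skewM ψ b c := by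
  unfold skewM
  rw [mulVec_add, add_vecMulVec, vecMulVec_add]
  abel

lemma skewM_smul_left (a b : ι → F) (c : F) : skewM ψ (c • a) b = c • skewM ψ a b := by
  unfold skewM
  rw [mulVec_smul, smul_vecMulVec, vecMulVec_smul, smul_sub]

lemma skewM_zero_left (b : ι → F) : skewM ψ 0 b = 0 := by
  have := skewM_smul_left (ψ := ψ) 0 b 0
  simpa using this

lemma skewM_neg_right (a b : ι → F) : skewM ψ a (-b) = - skewM ψ a b := by
  have := skewM_smul_right (ψ := ψ) a b (-1)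
  simpa using this

lemma skewM_sub_right (a b c : ι → F) : skewM ψ a (b - c) = skewM ψ a b - skewM ψ a c := by
  rw [sub_eq_add_neg, skewM_add_right, skewM_neg_right, ← sub_eq_add_neg]

lemma skewM_sub_left (a b c : ι → F) : skewM ψ (a - b) c = skewM ψ a c - skewM ψ b c := by
  rw [sub_eq_add_neg, skewM_add_left]
  have := skewM_smul_left (ψ := ψ) b c (-1)
  simp only [neg_smul, one_smul] at this
  rw [this, ← sub_eq_add_neg]

lemma skewM_sum_right {κ : Type*} (s : Finset κ) (f : κ → ι → F) (a : ι → F) :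
    skewM ψ a (∑ i ∈ s, f i) = ∑ i ∈ s, skewM ψ a (f i) := by
  classical
  induction s using Finset.induction_on with
  | empty =>
    have := skewM_smul_right (ψ := ψ) a 0 0
    simpa using this
  | insert i s hi ih => rw [Finset.sum_insert hi, Finset.sum_insert hi, skewM_add_right, ih]

/-- The elements of the Lie algebra as sums of elementary ones. -/
lemma sum_skewM (hψ : ψᵀ = ψ)
    (hN : ∀ v ∈ N, (∀ w ∈ N, bil ψ v w = 0) → v = 0) {n : ℕ} {b b' : Fin n → (ι → F)}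
    (hb : ∀ i, b i ∈ orthS ψ N) (hb' : ∀ i, b' i ∈ orthS ψ N)
    (h1 : ∀ z ∈ orthS ψ N, ∑ i, bil ψ (b' i) z • b i = z)
    (h2 : ∀ z ∈ orthS ψ N, ∑ i, bil ψ (b i) z • b' i = z)
    {x : Matrix ι ι F} (hx : x ∈ soT ψ (N : Set (ι → F))) :
    ∑ i, skewM ψ (b' i) (x *ᵥ b i) = (2 : F) • x := by
  apply eq_of_forall_mulVec
  intro v
  obtain ⟨a, ha, z, hz, rfl⟩ := exists_orth_decomp hψ hN v
  rw [Matrix.sum_mulVec, smul_mulVec, mulVec_add, hx.2 a ha, zero_add]
  have h3 : ∀ i, skewM ψ (b' i) (x *ᵥ b i) *ᵥ (a + z) =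
      bil ψ (b' i) z • (x *ᵥ b i) + bil ψ (b i) (x *ᵥ z) • b' i := by
    intro i
    rw [skewM_mulVec hψ, bil_add_right, bil_add_right, hb' i a ha,
      soT_mulVec_mem hx (b i) a ha, zero_add, zero_add, soT_skew hx, neg_smul, sub_neg_eq_add]
  simp only [h3]
  rw [Finset.sum_add_distrib, h2 _ (soT_mulVec_mem hx z)]
  have h4 : ∑ i, bil ψ (b' i) z • (x *ᵥ b i) = x *ᵥ z := by
    conv_rhs => rw [← h1 z hz]
    rw [Matrix.mulVec_sum]
    simp only [mulVec_smul]
  rw [h4, two_smul]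

/-- The partial Casimir operator. -/
lemma casimir (hψ : ψᵀ = ψ)
    (hN : ∀ v ∈ N, (∀ w ∈ N, bil ψ v w = 0) → v = 0) {n : ℕ} {b b' : Fin n → (ι → F)}
    (hb : ∀ i, b i ∈ orthS ψ N) (hb' : ∀ i, b' i ∈ orthS ψ N)
    (h1 : ∀ z ∈ orthS ψ N, ∑ i, bil ψ (b' i) z • b i = z)
    (h2 : ∀ z ∈ orthS ψ N, ∑ i, bil ψ (b i) z • b' i = z)
    (h3 : ∑ i, bil ψ (b' i) (b i) = (n : F))
    {x : Matrix ι ι F} (hx : x ∈ soT ψ (N : Set (ι → F))) {v : ι → F} (hv : v ∈ orthS ψ N) :
    ((n : F) - 4) • skewM ψ v (x *ᵥ v) = -((2 * bil ψ v v) • x) -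
      ∑ i, (skewM ψ v (b' i) * (skewM ψ v (b i) * x - x * skewM ψ v (b i)) -
        (skewM ψ v (b i) * x - x * skewM ψ v (b i)) * skewM ψ v (b' i)) := by
  have hxs := soT_skew hx
  have hxv := soT_mulVec_mem hx v
  have hvv : bil ψ v (x *ᵥ v) = 0 := by
    have := hxs v v
    rw [bil_symm hψ] at this
    have h4 : (2 : F) * bil ψ v (x *ᵥ v) = 0 := by linear_combination this
    exact (mul_eq_zero.mp h4).resolve_left two_ne_zero
  -- the terms
  have hterm : ∀ i, skewM ψ v (b' i) * (skewM ψ v (b i) * x - x * skewM ψ v (b i)) -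
        (skewM ψ v (b i) * x - x * skewM ψ v (b i)) * skewM ψ v (b' i) =
      -(bil ψ v (b i) • skewM ψ (x *ᵥ v) (b' i) - bil ψ (b' i) (x *ᵥ v) • skewM ψ v (b i) -
        bil ψ (b' i) (b i) • skewM ψ (x *ᵥ v) v) -
      (bil ψ v v • skewM ψ (b' i) (x *ᵥ b i) - bil ψ (b' i) v • skewM ψ v (x *ᵥ b i) -
        bil ψ (b i) (x *ᵥ v) • skewM ψ v (b' i)) := by
    intro i
    have e1 : skewM ψ v (b i) * x - x * skewM ψ v (b i) =
        -(skewM ψ (x *ᵥ v) (b i) + skewM ψ v (x *ᵥ b i)) := by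
      rw [← bracket_skewM hψ hxs]; abel
    rw [e1]
    have e2 := bracket_skewM hψ (skewM_skew hψ v (b' i)) (x *ᵥ v) (b i)
    have e3 := bracket_skewM hψ (skewM_skew hψ v (b' i)) v (x *ᵥ b i)
    have e4 : skewM ψ v (b' i) * -(skewM ψ (x *ᵥ v) (b i) + skewM ψ v (x *ᵥ b i)) -
        -(skewM ψ (x *ᵥ v) (b i) + skewM ψ v (x *ᵥ b i)) * skewM ψ v (b' i) =
        -(skewM ψ v (b' i) * skewM ψ (x *ᵥ v) (b i) - skewM ψ (x *ᵥ v) (b i) * skewM ψ v (b' i)) -
        (skewM ψ v (b' i) * skewM ψ v (x *ᵥ b i) - skewM ψ v (x *ᵥ b i) * skewM ψ v (b' i)) := by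
      noncomm_ring
    rw [e4, e2, e3]
    simp only [skewM_mulVec hψ, skewM_sub_left, skewM_sub_right, skewM_smul_left,
      skewM_smul_right, skewM_self hψ, hvv, zero_smul, smul_zero]
    have e5 : bil ψ v (x *ᵥ b i) = - bil ψ (b i) (x *ᵥ v) := by
      rw [bil_symm hψ, hxs]
    rw [e5, skewM_zero_left]
    module
  have hs1 : ∑ i, bil ψ v (b i) • skewM ψ (x *ᵥ v) (b' i) = - skewM ψ v (x *ᵥ v) := by
    have : ∀ i, bil ψ v (b i) • skewM ψ (x *ᵥ v) (b' i) =
        skewM ψ (x *ᵥ v) (bil ψ (b i) v • b' i) := by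
      intro i; rw [skewM_smul_right, bil_symm hψ]
    simp only [this]
    rw [← skewM_sum_right, h2 v hv, ← skewM_swap hψ]
  have hs2 : ∑ i, bil ψ (b' i) (x *ᵥ v) • skewM ψ v (b i) = skewM ψ v (x *ᵥ v) := by
    simp only [← skewM_smul_right]
    rw [← skewM_sum_right, h1 _ hxv]
  have hs3 : ∑ i, bil ψ (b' i) (b i) • skewM ψ (x *ᵥ v) v = -((n : F) • skewM ψ v (x *ᵥ v)) := by
    rw [← Finset.sum_smul, h3, skewM_swap hψ, smul_neg]
  have hs4 : ∑ i, bil ψ v v • skewM ψ (b' i) (x *ᵥ b i) = (2 * bil ψ v v) • x := by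
    rw [← Finset.smul_sum, sum_skewM hψ hN hb hb' h1 h2 hx, smul_smul, mul_comm]
  have hs5 : ∑ i, bil ψ (b' i) v • skewM ψ v (x *ᵥ b i) = skewM ψ v (x *ᵥ v) := by
    simp only [← skewM_smul_right]
    rw [← skewM_sum_right]
    congr 1
    conv_rhs => rw [← h1 v hv]
    rw [Matrix.mulVec_sum]
    simp only [mulVec_smul]
  have hs6 : ∑ i, bil ψ (b i) (x *ᵥ v) • skewM ψ v (b' i) = skewM ψ v (x *ᵥ v) := by
    simp only [← skewM_smul_right]
    rw [← skewM_sum_right, h2 _ hxv]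
  simp only [hterm]
  rw [Finset.sum_sub_distrib, Finset.sum_neg_distrib, Finset.sum_sub_distrib,
    Finset.sum_sub_distrib, Finset.sum_sub_distrib, Finset.sum_sub_distrib, hs1, hs2, hs3, hs4,
    hs5, hs6]
  module

/-- The orthogonal Lie algebra is simple in dimension different from `4`. -/
theorem so_simple (hψ : ψᵀ = ψ) (hdet : ψ.det ≠ 0)
    (hN : ∀ v ∈ N, (∀ w ∈ N, bil ψ v w = 0) → v = 0)
    (h4 : finrank F (orthS ψ N) ≠ 4) {I : Submodule F (Matrix ι ι F)}
    (hI : ∀ x ∈ I, x ∈ soT ψ (N : Set (ι → F)))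
    (hlie : ∀ x ∈ I, ∀ a ∈ orthS ψ N, ∀ b ∈ orthS ψ N,
      skewM ψ a b * x - x * skewM ψ a b ∈ I) (hne : I ≠ ⊥) :
    ∀ x ∈ soT ψ (N : Set (ι → F)), x ∈ I := by
  set T := orthS ψ N with hT
  have hTnd := nondeg_orthS hψ hdet hN
  obtain ⟨b₀, b₀', hb, hb', h1, h2, h3⟩ := exists_frame hψ hdet hN
  obtain ⟨x, hxI, hx0⟩ := (Submodule.ne_bot_iff _).mp hne
  have hx := hI x hxI
  -- step 1
  obtain ⟨v, hv, hvv, hxv⟩ : ∃ v ∈ T, bil ψ v v ≠ 0 ∧ x *ᵥ v ≠ 0 := by
    by_contra! hcon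
    apply hx0
    apply eq_of_forall_mulVec
    intro z
    rw [zero_mulVec]
    obtain ⟨a, ha, u, hu, rfl⟩ := exists_orth_decomp hψ hN z
    rw [mulVec_add, hx.2 a ha, zero_add]
    by_cases haniso : ∃ v₀ ∈ T, bil ψ v₀ v₀ ≠ 0
    · obtain ⟨v₀, hv₀, hq⟩ := haniso
      have e0 := hcon v₀ hv₀ hq
      by_cases c1 : bil ψ (v₀ + u) (v₀ + u) = 0
      · by_cases c2 : bil ψ (v₀ - u) (v₀ - u) = 0
        · rw [bil_add_left, bil_add_right, bil_add_right, bil_symm hψ u v₀] at c1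
          rw [bil_sub_left, bil_sub_right, bil_sub_right, bil_symm hψ u v₀] at c2
          apply hcon u hu
          intro c3
          rw [c3] at c1 c2
          apply hq
          have c4 : (2 : F) * bil ψ v₀ v₀ = 0 := by linear_combination c1 + c2
          exact (mul_eq_zero.mp c4).resolve_left two_ne_zero
        · have e1 := hcon (v₀ - u) (T.sub_mem hv₀ hu) c2
          rw [mulVec_sub, e0, zero_sub, neg_eq_zero] at e1
          exact e1
      · have e1 := hcon (v₀ + u) (T.add_mem hv₀ hu) c1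
        rw [mulVec_add, e0, zero_add] at e1
        exact e1
    · push Not at haniso
      have : u = 0 := by
        apply hTnd u hu
        intro w hw
        have c1 := haniso (u + w) (T.add_mem hu hw)
        rw [bil_add_left, bil_add_right, bil_add_right, haniso u hu, haniso w hw,
          bil_symm hψ w u] at c1
        have c4 : (2 : F) * bil ψ u w = 0 := by linear_combination c1
        exact (mul_eq_zero.mp c4).resolve_left two_ne_zero
      rw [this, mulVec_zero]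
  -- step 2
  set b := x *ᵥ v with hbdef
  have hbT : b ∈ T := soT_mulVec_mem hx v
  have hvb : bil ψ v b = 0 := by
    have := soT_skew hx v v
    rw [bil_symm hψ] at this
    have h5 : (2 : F) * bil ψ v (x *ᵥ v) = 0 := by linear_combination this
    exact (mul_eq_zero.mp h5).resolve_left two_ne_zero
  have hvbI : skewM ψ v b ∈ I := by
    have hc := casimir hψ hN hb hb' h1 h2 h3 hx hv
    have hn4 : ((finrank F T : F) - 4) ≠ 0 := by
      rw [sub_ne_zero]
      exact_mod_cast h4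
    have hmem : ((finrank F T : F) - 4) • skewM ψ v b ∈ I := by
      rw [hc]
      refine I.sub_mem (I.neg_mem (I.smul_mem _ hxI)) (I.sum_mem fun i _ ↦ ?_)
      exact hlie _ (hlie x hxI v hv _ (hb i)) v hv _ (hb' i)
    have := I.smul_mem ((finrank F T : F) - 4)⁻¹ hmem
    rwa [smul_smul, inv_mul_cancel₀ hn4, one_smul] at this
  -- step 3
  have hbd : ∀ d ∈ T, skewM ψ b d ∈ I := by
    have hperp : ∀ d ∈ T, bil ψ v d = 0 → skewM ψ b d ∈ I := by
      intro d hd hvd
      have e1 := hlie _ hvbI v hv d hd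
      have e2 := bracket_skewM hψ (skewM_skew hψ v b) v d
      have e3 : skewM ψ v d * skewM ψ v b - skewM ψ v b * skewM ψ v d =
          -(bil ψ v v • skewM ψ b d) := by
        rw [← neg_sub, e2, skewM_mulVec hψ, skewM_mulVec hψ, bil_symm hψ b v, hvb, hvd, zero_smul,
          zero_smul, sub_zero, zero_sub, skewM_neg_right, skewM_smul_right, skewM_self hψ,
          smul_zero, neg_zero, add_zero, skewM_smul_left]
      rw [e3] at e1
      have e4 := I.smul_mem (bil ψ v v)⁻¹ (I.neg_mem e1)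
      rwa [neg_neg, smul_smul, inv_mul_cancel₀ hvv, one_smul] at e4
    intro d hd
    have e1 : d = (d - (bil ψ v d * (bil ψ v v)⁻¹) • v) + (bil ψ v d * (bil ψ v v)⁻¹) • v := by
      abel
    rw [e1, skewM_add_right, skewM_smul_right]
    refine I.add_mem (hperp _ (T.sub_mem hd (T.smul_mem _ hv)) ?_) (I.smul_mem _ ?_)
    · rw [bil_sub_right, bil_smul_right, mul_assoc, inv_mul_cancel₀ hvv, mul_one, sub_self]
    · rw [skewM_swap hψ]
      exact I.neg_mem hvbI
  -- step 4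
  obtain ⟨e, he, hbe⟩ : ∃ e ∈ T, bil ψ b e = 1 := by
    obtain ⟨w, hw, hbw⟩ : ∃ w ∈ T, bil ψ b w ≠ 0 := by
      by_contra! h
      exact hxv (hTnd b hbT h)
    exact ⟨(bil ψ b w)⁻¹ • w, T.smul_mem _ hw, by rw [bil_smul_right, inv_mul_cancel₀ hbw]⟩
  have hud : ∀ u ∈ T, bil ψ b u = 0 → ∀ d ∈ T, skewM ψ u d ∈ I := by
    intro u hu hbu d hd
    have e1 := hlie _ (hbd d hd) u hu e he
    have e2 := bracket_skewM hψ (skewM_skew hψ b d) u e
    have e3 : skewM ψ u d = -(skewM ψ u e * skewM ψ b d - skewM ψ b d * skewM ψ u e) +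
        bil ψ d u • skewM ψ b e - bil ψ d e • skewM ψ b u := by
      rw [neg_sub, e2, skewM_mulVec hψ, skewM_mulVec hψ, hbu, hbe, zero_smul, zero_sub, one_smul,
        skewM_sub_right, skewM_smul_right, skewM_swap hψ b u, ← neg_smul, skewM_smul_left]
      module
    rw [e3]
    exact I.sub_mem (I.add_mem (I.neg_mem e1) (I.smul_mem _ (hbd e he)))
      (I.smul_mem _ (hbd u hu))
  have hcd : ∀ c ∈ T, ∀ d ∈ T, skewM ψ c d ∈ I := by
    have hed : ∀ d ∈ T, skewM ψ e d ∈ I := by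
      intro d hd
      have e1 : d = (d - bil ψ b d • e) + bil ψ b d • e := by abel
      rw [e1, skewM_add_right, skewM_smul_right, skewM_self hψ, smul_zero, add_zero,
        skewM_swap hψ]
      refine I.neg_mem (hud _ (T.sub_mem hd (T.smul_mem _ he)) ?_ e he)
      rw [bil_sub_right, bil_smul_right, hbe, mul_one, sub_self]
    intro c hc d hd
    have e1 : c = (c - bil ψ b c • e) + bil ψ b c • e := by abel
    rw [e1, skewM_add_left, skewM_smul_left]
    refine I.add_mem (hud _ (T.sub_mem hc (T.smul_mem _ he)) ?_ d hd) (I.smul_mem _ (hed d hd))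
    rw [bil_sub_right, bil_smul_right, hbe, mul_one, sub_self]
  -- step 5
  intro y hy
  have e1 := sum_skewM hψ hN hb hb' h1 h2 hy
  have e2 : (2 : F) • y ∈ I := by
    rw [← e1]
    exact I.sum_mem fun i _ ↦ hcd _ (hb' i) _ (soT_mulVec_mem hy _)
  have e3 := I.smul_mem (2 : F)⁻¹ e2
  rwa [smul_smul, inv_mul_cancel₀ two_ne_zero, one_smul] at e3

end Pool.Agent.Helper46.GG
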