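import Mathlib
import Pool.Agent.Helper46.GG.SoSimple

/-!
# Zariski dense subgroups of orthogonal groups act irreducibly on the Lie algebra
-/

set_option linter.unusedSectionVars false
set_option linter.unusedVariables false

namespace Pool.Agent.Helper46.GG

open Matrix Module Pool.Agent.Helper88.MT

variable {ι : Type*} [Fintype ι] [DecidableEq ι]
variable {k F : Type*} [Field k] [Field F] [Algebra k F]

/-- Vanishing spaces over a larger field. -/
lemma van_mono {S S' : Set (Matrix ι ι k)} (h : ∀ f ∈ van k S, f ∈ van k S') :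
    ∀ f ∈ van F S, f ∈ van F S' := by
  classical
  intro f hf M hM
  let b := Basis.ofVectorSpace k F
  obtain ⟨G, rfl⟩ := exists_poly_decomp b f
  have h1 : ∀ j, G j ∈ van k S := by
    intro j
    rw [mem_van_self]
    intro M' hM'
    have h2 := hf M' hM'
    rw [Finsupp.sum, map_sum] at h2
    simp only [map_smul, evM_map, smul_eq_mul] at h2
    have h3 : ((G.mapRange (fun p ↦ evM M' p) (by simp)).sum
        fun j c ↦ b j * algebraMap k F c) = 0 := by
      rw [Finsupp.sum_mapRange_index (by simp)]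
      exact h2
    have := coeffs_zero b h3 j
    rwa [Finsupp.mapRange_apply] at this
  rw [Finsupp.sum, map_sum]
  refine Finset.sum_eq_zero fun j _ ↦ ?_
  rw [map_smul, evM_map]
  have := mem_van_self.mp (h _ (h1 j)) M hM
  rw [this, map_zero, smul_zero]

/-- The polynomial `trace (L X w ψ⁻¹ Xᵗ ψ)`. -/
noncomputable def cpol (ψ L w : Matrix ι ι F) : MvPolynomial (ι × ι) F :=
  trace (L.map MvPolynomial.C * (genM ι F * w.map MvPolynomial.C *
    ((ψ⁻¹).map MvPolynomial.C * (genM ι F)ᵀ * ψ.map MvPolynomial.C)))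

lemma evM_cpol {R : Type*} [CommRing R] [Algebra F R] (ψ L w : Matrix ι ι F) (M : Matrix ι ι R) :
    evM M (cpol ψ L w) = trace (L.map (algebraMap F R) * (M * w.map (algebraMap F R) *
      ((ψ⁻¹).map (algebraMap F R) * Mᵀ * ψ.map (algebraMap F R)))) := by
  have h1 : ∀ A : Matrix ι ι (MvPolynomial (ι × ι) F), evM M (trace A) =
      trace ((evM (F := F) M).toRingHom.mapMatrix A) := by
    intro A
    exact AddMonoidHom.map_trace (evM (F := F) M) A
  rw [cpol, h1, map_mul, map_mul, map_mul, map_mul, map_mul, const_map, const_map, const_map,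
    const_map, genM_map]
  have : (evM (F := F) M).toRingHom.mapMatrix (genM ι F)ᵀ = Mᵀ := by
    rw [RingHom.mapMatrix_apply, Matrix.transpose_map]
    congr 1
    exact genM_map M
  rw [this]

/-- The derivative at the identity. -/
lemma der_cpol {ψ : Matrix ι ι F} (hdet : ψ.det ≠ 0) (L w : Matrix ι ι F) {x : Matrix ι ι F}
    (hx : xᵀ * ψ + ψ * x = 0) :
    evM (1 : Matrix ι ι F) (der x (cpol ψ L w)) = trace (L * (x * w - w * x)) := by
  have hal : ∀ a : F, algebraMap F (DualNumber F) a = TrivSqZeroExt.inl a := fun a ↦ rfl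
  set e : DualNumber F := TrivSqZeroExt.inr 1 with he
  have hee : e * e = 0 := by
    rw [he]
    ext <;> simp
  set φ := algebraMap F (DualNumber F) with hφ
  have hd : dualM 1 x = 1 + e • x.map φ := by
    ext i j
    all_goals
      rw [dualM, Matrix.add_apply, Matrix.smul_apply, Matrix.map_apply, hφ, hal, one_mul, he]
      by_cases hij : i = j
      · subst hij; simp
      · simp [Matrix.one_apply_ne hij]
  have h1 := evM_dualM (1 : Matrix ι ι F) x (cpol ψ L w)
  rw [evM_cpol, hd] at h1
  have hu : IsUnit ψ.det := isUnit_iff_ne_zero.mpr hdet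
  have hinv : (ψ⁻¹).map φ * ψ.map φ = 1 := by
    rw [← Matrix.map_mul, Matrix.nonsing_inv_mul _ hu]
    exact Matrix.map_one _ (map_zero _) (map_one _)
  have hskew : (ψ⁻¹).map φ * (x.map φ)ᵀ * ψ.map φ = - x.map φ := by
    have h2 : (x.map φ)ᵀ * ψ.map φ = -(ψ.map φ * x.map φ) := by
      have h3 : xᵀ * ψ = -(ψ * x) := eq_neg_of_add_eq_zero_left hx
      have h4 : (-(ψ * x)).map φ = -((ψ * x).map φ) := Matrix.ext fun i j ↦ by
        rw [Matrix.map_apply, Matrix.neg_apply, Matrix.neg_apply, Matrix.map_apply, map_neg]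
      rw [← Matrix.transpose_map, ← Matrix.map_mul, h3, h4, Matrix.map_mul]
    rw [Matrix.mul_assoc, h2, Matrix.mul_neg, ← Matrix.mul_assoc, hinv, Matrix.one_mul]
  have hB : (ψ⁻¹).map φ * (1 + e • x.map φ)ᵀ * ψ.map φ = 1 - e • x.map φ := by
    rw [transpose_add, transpose_one, transpose_smul, Matrix.mul_add, Matrix.mul_one,
      Matrix.add_mul, hinv, mul_smul_comm, smul_mul_assoc, hskew, smul_neg, ← sub_eq_add_neg]
  rw [hB] at h1
  have hprod : L.map φ * ((1 + e • x.map φ) * w.map φ * (1 - e • x.map φ)) =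
      (L * w).map φ + e • (L * (x * w - w * x)).map φ := by
    have h2 : (e • x.map φ) * w.map φ * (e • x.map φ) = 0 := by
      rw [smul_mul_assoc, smul_mul_assoc, mul_smul_comm, smul_smul, hee, zero_smul]
    have h3 : (1 + e • x.map φ) * w.map φ * (1 - e • x.map φ) =
        w.map φ + ((e • x.map φ) * w.map φ - w.map φ * (e • x.map φ)) := by
      generalize e • x.map φ = Y at h2 ⊢
      generalize w.map φ = Z at h2 ⊢
      calc (1 + Y) * Z * (1 - Y) = Z + (Y * Z - Z * Y) - Y * Z * Y := by noncomm_ring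
        _ = _ := by rw [h2, sub_zero]
    rw [h3, Matrix.mul_add, ← Matrix.map_mul, smul_mul_assoc, mul_smul_comm, ← smul_sub,
      mul_smul_comm, ← Matrix.map_mul, ← Matrix.map_mul]
    congr 2
    rw [← Matrix.map_sub φ (map_sub φ), ← Matrix.map_mul]
  rw [hprod, trace_add, trace_smul] at h1
  have h4 : ∀ A : Matrix ι ι F, trace (A.map φ) = φ (trace A) := fun A ↦
    (AddMonoidHom.map_trace φ A).symm
  rw [h4, h4, hφ, hal, hal, he] at h1
  have h5 := congrArg TrivSqZeroExt.snd h1
  simp at h5
  exact h5.symm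

variable [CharZero k]

/-- A Zariski dense set of isometries acts irreducibly on the Lie algebra. -/
theorem dense_irr {ψ : Matrix ι ι k} (hψ : ψᵀ = ψ) (hdet : ψ.det ≠ 0) {N : Submodule k (ι → k)}
    (hN : ∀ v ∈ N, (∀ w ∈ N, bil ψ v w = 0) → v = 0) (h4 : finrank k (orthS ψ N) ≠ 4)
    {S : Set (Matrix ι ι k)} (hS : ∀ M ∈ S, Mᵀ * ψ * M = ψ)
    (hdense : ∀ f ∈ van k S, f ∈ van k (SOT ψ (N : Set (ι → k))))
    {W : Submodule F (Matrix ι ι F)}
    (hW : ∀ x ∈ W, x ∈ soT (ψ.map (algebraMap k F)) (smap F N : Set (ι → F)))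
    (hstab : ∀ M ∈ S, ∀ w ∈ W, M.map (algebraMap k F) * w * (M⁻¹).map (algebraMap k F) ∈ W) :
    W = ⊥ ∨ ∀ x ∈ soT (ψ.map (algebraMap k F)) (smap F N : Set (ι → F)), x ∈ W := by
  have hFchar : CharZero F := charZero_of_injective_algebraMap (algebraMap k F).injective
  set ψ' := ψ.map (algebraMap k F) with hψ'def
  have hψ' : ψ'ᵀ = ψ' := by
    rw [hψ'def, ← Matrix.transpose_map, hψ]
  have hdet' : ψ'.det ≠ 0 := by
    have : (ψ.map (algebraMap k F)).det = algebraMap k F ψ.det := (RingHom.map_det _ _).symm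
    rw [hψ'def, this]
    simpa using hdet
  have hinv' : ψ'⁻¹ = (ψ⁻¹).map (algebraMap k F) := by
    refine Matrix.inv_eq_left_inv ?_
    rw [hψ'def, ← Matrix.map_mul, Matrix.nonsing_inv_mul _ (isUnit_iff_ne_zero.mpr hdet)]
    exact Matrix.map_one _ (map_zero _) (map_one _)
  -- stability under the brackets with rational elements
  have hrat : ∀ x ∈ soT ψ (N : Set (ι → k)), ∀ w ∈ W,
      x.map (algebraMap k F) * w - w * x.map (algebraMap k F) ∈ W := by
    intro x hx w hw
    by_contra hcon
    obtain ⟨L, hL, hLne⟩ : ∃ L : Matrix ι ι F, (∀ w' ∈ W, trace (L * w') = 0) ∧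
        trace (L * (x.map (algebraMap k F) * w - w * x.map (algebraMap k F))) ≠ 0 := by
      obtain ⟨f, hf, hfW⟩ := Submodule.exists_dual_map_eq_bot_of_notMem hcon inferInstance
      let L : Matrix ι ι F := Matrix.of fun j i ↦ f (Matrix.single i j 1)
      have hL : ∀ w, trace (L * w) = f w := by
        intro w
        have h1 : w = ∑ i, ∑ j, w i j • Matrix.single i j (1 : F) := by
          conv_lhs => rw [Matrix.matrix_eq_sum_single w]
          simp
        conv_rhs => rw [h1]
        simp only [map_sum, map_smul, smul_eq_mul]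
        rw [trace, Finset.sum_comm]
        refine Finset.sum_congr rfl fun j _ ↦ ?_
        rw [diag_apply, Matrix.mul_apply]
        refine Finset.sum_congr rfl fun i _ ↦ ?_
        exact mul_comm _ _
      refine ⟨L, ?_, by rw [hL]; exact hf⟩
      intro w hw
      rw [hL]
      have : f w ∈ W.map f := ⟨w, hw, rfl⟩
      rw [hfW] at this
      simpa using this
    apply hLne
    -- the polynomial vanishes on the group
    have h1 : cpol ψ' L w ∈ van F S := by
      intro M hM
      rw [evM_cpol]
      have hid : ∀ A : Matrix ι ι F, A.map (algebraMap F F) = A := fun A ↦ by ext i j; simp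
      rw [hid, hid, hid, hid]
      have hMu : ψ⁻¹ * Mᵀ * ψ * M = 1 := by
        rw [Matrix.mul_assoc, Matrix.mul_assoc, ← Matrix.mul_assoc Mᵀ, hS M hM,
          Matrix.nonsing_inv_mul _ (isUnit_iff_ne_zero.mpr hdet)]
      have hMi : M⁻¹ = ψ⁻¹ * Mᵀ * ψ := Matrix.inv_eq_left_inv hMu
      have h2 := hstab M hM w hw
      rw [hMi, Matrix.map_mul, Matrix.map_mul, ← hinv', Matrix.transpose_map] at h2
      exact hL _ h2
    have h2 := van_mono (F := F) hdense _ h1
    have h3 := der_mem_van (F := F) (der_mem_van_SOT hdet hx) _ h2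
    have h4 := h3 1 (one_mem_SOT ψ _)
    rw [Matrix.map_one _ (map_zero _) (map_one _)] at h4
    rw [← der_cpol hdet' L w]
    · exact h4
    · have := hx.1
      have h5 : (xᵀ * ψ + ψ * x).map (algebraMap k F) =
          (0 : Matrix ι ι k).map (algebraMap k F) := by rw [this]
      rw [Matrix.map_add _ (map_add _), Matrix.map_mul, Matrix.map_mul, Matrix.transpose_map,
        Matrix.map_zero _ (map_zero _)] at h5
      exact h5
  -- stability under all brackets
  have hall : ∀ x ∈ soT ψ' (smap F N : Set (ι → F)), ∀ w ∈ W, x * w - w * x ∈ W := by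
    intro x hx w hw
    have hx' := soT_smap_le (F := F) hx
    unfold mspan at hx'
    clear hx
    induction hx' using Submodule.span_induction with
    | mem x hx =>
      obtain ⟨y, hy, rfl⟩ := hx
      exact hrat y hy w hw
    | zero => rw [zero_mul, mul_zero, sub_zero]; exact W.zero_mem
    | add x y _ _ hx hy =>
      have : (x + y) * w - w * (x + y) = (x * w - w * x) + (y * w - w * y) := by noncomm_ring
      rw [this]
      exact W.add_mem hx hy
    | smul c x _ hx =>
      rw [smul_mul_assoc, mul_smul_comm, ← smul_sub]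
      exact W.smul_mem c hx
  by_cases hne : W = ⊥
  · exact Or.inl hne
  right
  refine so_simple hψ' hdet' (nondeg_smap hN) ?_ hW ?_ hne
  · rw [hψ'def, orthS_smap, finrank_smap]
    exact h4
  · intro x hx a ha b hb
    exact hall _ (skewM_mem hψ' ha hb) x hx

end Pool.Agent.Helper46.GG
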