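import Mathlib
import Pool.Agent.Helper88.MT.Final

/-!
# A linear group whose Zariski closure has trivial Lie algebra is finite
-/

set_option linter.unusedSectionVars false
set_option linter.unusedVariables false

namespace Pool.Agent.Helper46.GG

open Matrix Module Pool.Agent.Helper88.MT

section Taylor

variable {ι : Type*} [Fintype ι] [DecidableEq ι]
variable {F : Type*} [Field F]

/-- The maximal ideal of a point. -/
noncomputable def mI (M : Matrix ι ι F) : Ideal (MvPolynomial (ι × ι) F) :=
  RingHom.ker (evM M)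

lemma mem_mI {M : Matrix ι ι F} {f : MvPolynomial (ι × ι) F} : f ∈ mI M ↔ evM M f = 0 :=
  RingHom.mem_ker

lemma xi_mem (M : Matrix ι ι F) (p : ι × ι) :
    (MvPolynomial.X p - MvPolynomial.C (M p.1 p.2)) ∈ mI M := by
  rw [mem_mI, map_sub, evM_X, evM_C]
  exact sub_self _

/-- Taylor expansion to the first order. -/
lemma taylor (M : Matrix ι ι F) (f : MvPolynomial (ι × ι) F) :
    ∃ c : ι × ι → F, f - MvPolynomial.C (evM M f) -
      ∑ p, MvPolynomial.C (c p) * (MvPolynomial.X p - MvPolynomial.C (M p.1 p.2)) ∈ mI M ^ 2 := by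
  induction f using MvPolynomial.induction_on with
  | C a =>
    refine ⟨0, ?_⟩
    have : evM M (MvPolynomial.C a) = a := evM_C M a
    rw [this]
    simp
  | add p q hp hq =>
    obtain ⟨c, hc⟩ := hp
    obtain ⟨d, hd⟩ := hq
    refine ⟨c + d, ?_⟩
    have h := Ideal.add_mem _ hc hd
    convert h using 1
    rw [map_add, MvPolynomial.C_add]
    simp only [Pi.add_apply, MvPolynomial.C_add, add_mul, Finset.sum_add_distrib]
    ring
  | mul_X f q hf =>
    obtain ⟨c, hc⟩ := hf
    set ξ : ι × ι → MvPolynomial (ι × ι) F :=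
      fun p ↦ MvPolynomial.X p - MvPolynomial.C (M p.1 p.2) with hξ
    refine ⟨fun p ↦ M q.1 q.2 * c p + if p = q then evM M f else 0, ?_⟩
    have h1 : f * MvPolynomial.X q - MvPolynomial.C (evM M (f * MvPolynomial.X q)) -
        ∑ p, MvPolynomial.C (M q.1 q.2 * c p + if p = q then evM M f else 0) * ξ p =
        (f - MvPolynomial.C (evM M f) - ∑ p, MvPolynomial.C (c p) * ξ p) * MvPolynomial.X q +
        (∑ p, MvPolynomial.C (c p) * ξ p) * ξ q := by
      have e1 : (MvPolynomial.X q : MvPolynomial (ι × ι) F) = MvPolynomial.C (M q.1 q.2) + ξ q := by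
        rw [hξ]; ring
      have e2 : evM M (f * MvPolynomial.X q) = evM M f * M q.1 q.2 := by
        rw [map_mul, evM_X]
      have e3 : ∑ p, MvPolynomial.C (M q.1 q.2 * c p + if p = q then evM M f else 0) * ξ p =
          MvPolynomial.C (M q.1 q.2) * (∑ p, MvPolynomial.C (c p) * ξ p) +
            MvPolynomial.C (evM M f) * ξ q := by
        simp only [MvPolynomial.C_add, MvPolynomial.C_mul, add_mul, Finset.sum_add_distrib]
        congr 1
        · rw [Finset.mul_sum]
          exact Finset.sum_congr rfl fun p _ ↦ by ring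
        · rw [Finset.sum_eq_single q]
          · rw [if_pos rfl]
          · intro p _ hp
            rw [if_neg hp, MvPolynomial.C_0, zero_mul]
          · intro h; exact absurd (Finset.mem_univ q) h
      rw [e2, e3, MvPolynomial.C_mul]
      linear_combination (f - MvPolynomial.C (evM M f) - (∑ p, MvPolynomial.C (c p) * ξ p) -
        (f - MvPolynomial.C (evM M f) - ∑ p, MvPolynomial.C (c p) * ξ p) +
        MvPolynomial.C (evM M f) + ∑ p, MvPolynomial.C (c p) * ξ p) * e1
    rw [h1]
    refine Ideal.add_mem _ (Ideal.mul_mem_right _ _ hc) ?_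
    rw [pow_two]
    exact Ideal.mul_mem_mul (Ideal.sum_mem _ fun p _ ↦ Ideal.mul_mem_left _ _ (xi_mem M p))
      (xi_mem M q)

/-- A polynomial vanishing at `M` to the second order is in the square of the maximal ideal. -/
lemma mem_sq {M : Matrix ι ι F} (hM : IsUnit M.det) {f : MvPolynomial (ι × ι) F}
    (h0 : evM M f = 0) (h1 : ∀ x : Matrix ι ι F, evM M (der x f) = 0) : f ∈ mI M ^ 2 := by
  obtain ⟨c, hc⟩ := taylor M f
  rw [h0, MvPolynomial.C_0, sub_zero] at hc
  set s := ∑ p, MvPolynomial.C (c p) * (MvPolynomial.X p - MvPolynomial.C (M p.1 p.2)) with hs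
  have hsq : ∀ g ∈ mI M ^ 2, ∀ x : Matrix ι ι F, evM M (der x g) = 0 := by
    intro g hg x
    rw [pow_two] at hg
    refine Submodule.mul_induction_on hg ?_ ?_
    · intro a ha b hb
      rw [Derivation.leibniz, map_add, smul_eq_mul, smul_eq_mul, map_mul, map_mul,
        mem_mI.mp ha, mem_mI.mp hb, zero_mul, zero_mul, add_zero]
    · intro a b ha hb
      rw [map_add, map_add, ha, hb, add_zero]
  have hsder : ∀ x : Matrix ι ι F, evM M (der x s) = 0 := by
    intro x
    have := hsq _ hc x
    rw [map_sub, map_sub, h1 x, zero_sub, neg_eq_zero] at this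
    exact this
  have hval : ∀ x : Matrix ι ι F, evM M (der x s) = ∑ p : ι × ι, c p * (M * x) p.1 p.2 := by
    intro x
    rw [hs, map_sum, map_sum]
    refine Finset.sum_congr rfl fun p _ ↦ ?_
    have e1 : der x (MvPolynomial.C (c p)) = 0 := Derivation.map_algebraMap _ _
    have e2 : der x (MvPolynomial.C (M p.1 p.2)) = 0 := Derivation.map_algebraMap _ _
    rw [Derivation.leibniz, e1, smul_zero, add_zero, smul_eq_mul, map_mul, evM_C, map_sub, e2,
      sub_zero, evM_der_X]
    have : x.map (algebraMap F F) = x := by ext i j; simp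
    rw [this]
    simp
  have hc0 : ∀ p, c p = 0 := by
    intro p
    have h2 := hsder (M⁻¹ * Matrix.single p.1 p.2 1)
    rw [hval, ← Matrix.mul_assoc, Matrix.mul_nonsing_inv M hM, Matrix.one_mul,
      Finset.sum_eq_single p] at h2
    · simpa [Matrix.single] using h2
    · rintro ⟨a, b⟩ _ hq
      have : ¬ (p.1 = a ∧ p.2 = b) := by
        rintro ⟨rfl, rfl⟩
        exact hq rfl
      simp [Matrix.single, this]
    · intro h; exact absurd (Finset.mem_univ p) h
  have : s = 0 := by
    rw [hs]
    refine Finset.sum_eq_zero fun p _ ↦ ?_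
    rw [hc0 p, MvPolynomial.C_0, zero_mul]
  rwa [this, sub_zero] at hc

lemma mI_prime (M : Matrix ι ι F) : (mI M).IsPrime := RingHom.ker_isPrime _

lemma mI_injective {M M' : Matrix ι ι F} (h : mI M = mI M') : M = M' := by
  ext i j
  have h1 := xi_mem M (i, j)
  rw [h, mem_mI, map_sub, evM_X, evM_C] at h1
  exact (sub_eq_zero.mp h1).symm

lemma map_mul_dualM (A M x : Matrix ι ι F) :
    A.map (algebraMap F (DualNumber F)) * dualM M x = dualM (A * M) x := by
  have hal : ∀ a : F, algebraMap F (DualNumber F) a = TrivSqZeroExt.inl a := fun a ↦ rfl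
  ext i j
  · rw [Matrix.mul_apply, TrivSqZeroExt.fst_sum]
    simp only [dualM, Matrix.map_apply, hal, TrivSqZeroExt.fst_mul,
      TrivSqZeroExt.fst_inl, TrivSqZeroExt.fst_add, TrivSqZeroExt.fst_inr, add_zero]
    rw [← Matrix.mul_apply]
  · rw [Matrix.mul_apply, TrivSqZeroExt.snd_sum]
    simp only [dualM, Matrix.map_apply, hal, TrivSqZeroExt.snd_mul,
      TrivSqZeroExt.snd_inl, TrivSqZeroExt.snd_add, TrivSqZeroExt.snd_inr, zero_add,
      TrivSqZeroExt.fst_inl, smul_zero, add_zero, smul_eq_mul]
    rw [← Matrix.mul_apply, Matrix.mul_assoc]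

end Taylor

section Group

variable {r : ℕ} {F : Type*} [Field F]

/-- A group of matrices such that no nonzero invariant derivation preserves its vanishing ideal is
finite. -/
theorem finite_of_lie_zero {Γ : Subgroup (GL (Fin r) F)}
    (hlie : ∀ x : Matrix (Fin r) (Fin r) F,
      (∀ f ∈ van F (mats Γ), der x f ∈ van F (mats Γ)) → x = 0) :
    (Γ : Set (GL (Fin r) F)).Finite := by
  classical
  -- the vanishing ideal
  let I : Ideal (MvPolynomial (Fin r × Fin r) F) :=
    { carrier := {f | ∀ M ∈ mats Γ, evM M f = 0}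
      add_mem' := by
        intro f g hf hg M hM
        rw [map_add, hf M hM, hg M hM, add_zero]
      zero_mem' := by
        intro M _
        rw [map_zero]
      smul_mem' := by
        intro c f hf M hM
        rw [smul_eq_mul, map_mul, hf M hM, mul_zero] }
  have hI : ∀ f, f ∈ I ↔ f ∈ van F (mats Γ) := fun f ↦ mem_van_self.symm
  -- tangent vectors at any point
  have htan : ∀ a ∈ Γ, ∀ x : Matrix (Fin r) (Fin r) F,
      (∀ f ∈ I, evM (a : Matrix (Fin r) (Fin r) F) (der x f) = 0) → x = 0 := by
    intro a ha x hx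
    apply hlie
    intro f hf
    rw [mem_van_self]
    rintro _ ⟨b, hb, rfl⟩
    obtain ⟨f', hf'⟩ := exists_translate ((b * a⁻¹ : GL (Fin r) F) : Matrix (Fin r) (Fin r) F) f
    have h2 : f' ∈ I := by
      rintro _ ⟨g, hg, rfl⟩
      rw [hf']
      have e1 : ((b * a⁻¹ : GL (Fin r) F) : Matrix (Fin r) (Fin r) F).map (algebraMap F F) =
          ((b * a⁻¹ : GL (Fin r) F) : Matrix (Fin r) (Fin r) F) := by ext i j; simp
      rw [e1]
      exact mem_van_self.mp hf _ ⟨b * a⁻¹ * g, Γ.mul_mem (Γ.mul_mem hb (Γ.inv_mem ha)) hg, rfl⟩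
    have h3 := hx f' h2
    have h4 := hf' (dualM (a : Matrix (Fin r) (Fin r) F) x)
    rw [map_mul_dualM, ← Units.val_mul, inv_mul_cancel_right, evM_dualM, evM_dualM, h3] at h4
    have h5 := congrArg TrivSqZeroExt.snd h4
    simp only [TrivSqZeroExt.snd_add, TrivSqZeroExt.snd_inl, TrivSqZeroExt.snd_inr,
      zero_add] at h5
    exact h5.symm
  -- cotangent spaces
  have hcot : ∀ a ∈ Γ, mI (a : Matrix (Fin r) (Fin r) F) ≤
      I ⊔ mI (a : Matrix (Fin r) (Fin r) F) ^ 2 := by
    intro a ha g hg
    have hdet : IsUnit (a : Matrix (Fin r) (Fin r) F).det :=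
      (Matrix.isUnit_iff_isUnit_det _).mp a.isUnit
    -- the functionals
    let φ : MvPolynomial (Fin r × Fin r) F →ₗ[F] Module.Dual F (Matrix (Fin r) (Fin r) F) :=
      { toFun := fun f ↦
          { toFun := fun x ↦ evM (a : Matrix (Fin r) (Fin r) F) (der x f)
            map_add' := by
              intro x y
              rw [der_add, Derivation.add_apply, map_add]
            map_smul' := by
              intro c x
              rw [der_smul, Derivation.smul_apply, map_smul, RingHom.id_apply] }
        map_add' := by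
          intro f f'
          ext1 x
          change evM (a : Matrix (Fin r) (Fin r) F) (der x (f + f')) =
            evM (a : Matrix (Fin r) (Fin r) F) (der x f) +
              evM (a : Matrix (Fin r) (Fin r) F) (der x f')
          rw [map_add, map_add]
        map_smul' := by
          intro c f
          ext1 x
          change evM (a : Matrix (Fin r) (Fin r) F) (der x (c • f)) =
            c • evM (a : Matrix (Fin r) (Fin r) F) (der x f)
          rw [Derivation.map_smul, map_smul] }
    have hφ : ∀ f x, φ f x = evM (a : Matrix (Fin r) (Fin r) F) (der x f) := fun f x ↦ rfl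
    let I' : Submodule F (MvPolynomial (Fin r × Fin r) F) := I.restrictScalars F
    have htop : I'.map φ = ⊤ := by
      by_contra hne
      obtain ⟨x, hx0, hx⟩ : ∃ x : Matrix (Fin r) (Fin r) F, x ≠ 0 ∧ ∀ ℓ ∈ I'.map φ, ℓ x = 0 := by
        have h1 : (I'.map φ).dualCoannihilator ≠ ⊥ := by
          intro h2
          apply hne
          have h3 := Subspace.dualCoannihilator_dualAnnihilator_eq (W := I'.map φ)
          rw [h2, Submodule.dualAnnihilator_bot] at h3
          exact h3.symm
        obtain ⟨x, hx, hx0⟩ := (Submodule.ne_bot_iff _).mp h1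
        refine ⟨x, hx0, fun ℓ hℓ ↦ ?_⟩
        exact (Submodule.mem_dualCoannihilator _).mp hx ℓ hℓ
      apply hx0
      apply htan a ha x
      intro f hf
      rw [← hφ]
      exact hx _ ⟨f, hf, rfl⟩
    have h1 : φ g ∈ I'.map φ := by rw [htop]; exact Submodule.mem_top
    obtain ⟨f, hf, hfg⟩ := h1
    have hf' : f ∈ I := hf
    have h2 : g - f ∈ mI (a : Matrix (Fin r) (Fin r) F) ^ 2 := by
      apply mem_sq hdet
      · rw [map_sub, mem_mI.mp hg, hf' _ ⟨a, ha, rfl⟩, sub_zero]
      · intro x
        have := congrArg (fun ℓ : Module.Dual F (Matrix (Fin r) (Fin r) F) ↦ ℓ x) hfg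
        simp only [hφ] at this
        rw [map_sub, map_sub, this, sub_self]
    have h3 : g = f + (g - f) := by ring
    rw [h3]
    exact Submodule.add_mem_sup hf' h2
  -- the maximal ideals of the points are minimal primes
  have hmin : ∀ a ∈ Γ, mI (a : Matrix (Fin r) (Fin r) F) ∈ I.minimalPrimes := by
    intro a ha
    set 𝔪 := mI (a : Matrix (Fin r) (Fin r) F) with h𝔪
    have hIm : I ≤ 𝔪 := fun f hf ↦ mem_mI.mpr (hf _ ⟨a, ha, rfl⟩)
    refine ⟨⟨mI_prime _, hIm⟩, ?_⟩
    rintro p ⟨hp, hIp⟩ hpm
    have hN : (Submodule.map (Submodule.mkQ (p : Submodule _ _)) (𝔪 : Submodule _ _)).FG :=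
      Submodule.FG.map _ (IsNoetherian.noetherian _)
    obtain ⟨c, hc1, hc2⟩ := Submodule.exists_sub_one_mem_and_smul_eq_zero_of_fg_of_le_smul 𝔪
      (Submodule.map (Submodule.mkQ (p : Submodule _ _)) (𝔪 : Submodule _ _)) hN (by
        rintro _ ⟨g, hg, rfl⟩
        obtain ⟨f, hf, s, hs, hfs⟩ := Submodule.mem_sup.mp (hcot a ha hg)
        rw [← hfs, map_add]
        have h0 : Submodule.mkQ (p : Submodule _ _) f = 0 := by
          rw [Submodule.mkQ_apply, Submodule.Quotient.mk_eq_zero]
          exact hIp hf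
        rw [h0, zero_add]
        rw [← h𝔪, pow_two] at hs
        refine Submodule.mul_induction_on hs ?_ ?_
        · intro u hu v hv
          rw [← smul_eq_mul, map_smul]
          exact Submodule.smul_mem_smul hu ⟨v, hv, rfl⟩
        · intro u v hu hv
          rw [map_add]
          exact Submodule.add_mem _ hu hv)
    intro g hg
    have h1 := hc2 _ ⟨g, hg, rfl⟩
    rw [← map_smul, Submodule.mkQ_apply, Submodule.Quotient.mk_eq_zero, smul_eq_mul] at h1
    rcases hp.mem_or_mem h1 with h2 | h2
    · exfalso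
      apply (mI_prime (a : Matrix (Fin r) (Fin r) F)).ne_top
      rw [Ideal.eq_top_iff_one]
      have h3 : (1 : MvPolynomial (Fin r × Fin r) F) = c - (c - 1) := by ring
      rw [h3]
      exact Ideal.sub_mem _ (hpm h2) hc1
    · exact h2
  -- conclusion
  have hfin : (I.minimalPrimes).Finite := Ideal.finite_minimalPrimes_of_isNoetherianRing _ I
  refine Set.Finite.of_injOn (f := fun a : GL (Fin r) F ↦ mI (a : Matrix (Fin r) (Fin r) F))
    (t := I.minimalPrimes) (fun a ha ↦ hmin a ha) ?_ hfin
  intro a _ b _ hab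
  exact Units.ext (mI_injective hab)

end Group

end Pool.Agent.Helper46.GG
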