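import Mathlib

/-!
# Finite subgroups of `GL r` over the `ℓ`-adic integers
-/

set_option linter.unusedSectionVars false
set_option linter.unusedVariables false

namespace Pool.Agent.Helper46.GG

open Matrix

variable {r : ℕ} {ℓ : ℕ} [Fact ℓ.Prime]

lemma one_add_pow {A : Type*} [Ring A] (t : A) (n : ℕ) :
    ∃ z : A, (1 + t) ^ n = 1 + n * t + t ^ 2 * z := by
  induction n with
  | zero => exact ⟨0, by simp⟩
  | succ n ih =>
    obtain ⟨z, hz⟩ := ih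
    refine ⟨n + z + z * t, ?_⟩
    have e : (n : A) * t * t = t ^ 2 * n := by
      rw [mul_assoc, ← pow_two]
      exact (Nat.cast_commute n (t ^ 2)).eq
    calc (1 + t) ^ (n + 1) = (1 + n * t + t ^ 2 * z) * (1 + t) := by rw [pow_succ, hz]
      _ = 1 + n * t + t ^ 2 * z + (t + n * t * t + t ^ 2 * z * t) := by
        rw [mul_add, mul_one, add_mul, add_mul, one_mul]
      _ = _ := by
        rw [e, mul_add, mul_add, mul_assoc (t ^ 2) z t]
        push_cast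
        rw [add_mul, one_mul]
        abel

/-- An element of prime order congruent to one modulo `ℓ ^ 2` is one. -/
lemma congr_step {p : ℕ} (hp : p.Prime) {a : ℕ} (ha : 2 ≤ a) {y : Matrix (Fin r) (Fin r) ℤ_[ℓ]}
    (h : (1 + (ℓ : ℤ_[ℓ]) ^ a • y) ^ p = 1) : ∃ y', y = (ℓ : ℤ_[ℓ]) • y' := by
  have hl0 : (ℓ : ℤ_[ℓ]) ≠ 0 := PadicInt.prime_p.ne_zero
  obtain ⟨z, hz⟩ := one_add_pow ((ℓ : ℤ_[ℓ]) ^ a • y) p
  rw [h] at hz
  have h1 : (ℓ : ℤ_[ℓ]) ^ a • ((p : Matrix (Fin r) (Fin r) ℤ_[ℓ]) * y +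
      (ℓ : ℤ_[ℓ]) ^ a • (y ^ 2 * z)) = 0 := by
    have h2 : (p : Matrix (Fin r) (Fin r) ℤ_[ℓ]) * ((ℓ : ℤ_[ℓ]) ^ a • y) +
        ((ℓ : ℤ_[ℓ]) ^ a • y) ^ 2 * z = 0 := by
      have := sub_eq_zero.mpr hz.symm
      rw [add_assoc, add_sub_cancel_left] at this
      exact this
    rw [← h2, smul_add, mul_smul_comm, smul_pow, smul_smul, ← pow_two, smul_mul_assoc]
  have h3 : (p : Matrix (Fin r) (Fin r) ℤ_[ℓ]) * y + (ℓ : ℤ_[ℓ]) ^ a • (y ^ 2 * z) = 0 := by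
    rcases smul_eq_zero.mp h1 with h4 | h4
    · exact absurd h4 (pow_ne_zero _ hl0)
    · exact h4
  have hdiv : ∀ i j, (ℓ : ℤ_[ℓ]) ∣ y i j := by
    intro i j
    by_contra hnd
    have h4 := congrFun (congrFun h3 i) j
    have h5 : ((p : Matrix (Fin r) (Fin r) ℤ_[ℓ]) * y) i j = (p : ℤ_[ℓ]) * y i j := by
      rw [← nsmul_eq_mul, Matrix.smul_apply, nsmul_eq_mul]
    rw [Matrix.add_apply, h5, Matrix.smul_apply, smul_eq_mul, Matrix.zero_apply] at h4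
    have h6 : (ℓ : ℤ_[ℓ]) ^ 2 ∣ y i j * p := by
      refine (pow_dvd_pow _ ha).trans ⟨-((y ^ 2 * z) i j), ?_⟩
      linear_combination h4
    have h7 := PadicInt.prime_p.pow_dvd_of_dvd_mul_left 2 hnd h6
    have h8 : ((ℓ ^ 2 : ℕ) : ℤ) ∣ (p : ℤ) := by
      rw [Nat.cast_pow]
      have := (PadicInt.pow_p_dvd_int_iff (p := ℓ) 2 (p : ℤ)).mp (by exact_mod_cast h7)
      exact_mod_cast this
    have h9 : ℓ ^ 2 ∣ p := by exact_mod_cast h8
    have hl2 : 2 ≤ ℓ := (Fact.out : ℓ.Prime).two_le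
    rcases (Nat.dvd_prime hp).mp h9 with h10 | h10
    · nlinarith
    · have : ¬ (ℓ ^ 2).Prime := by
        rw [pow_two]
        exact Nat.not_prime_mul (by omega) (by omega)
      exact this (h10 ▸ hp)
  choose w hw using hdiv
  exact ⟨Matrix.of fun i j ↦ w i j, by
    ext i j; rw [Matrix.smul_apply, smul_eq_mul, Matrix.of_apply]; exact hw i j⟩

lemma eq_one_of_prime_order {p : ℕ} (hp : p.Prime) {g : GL (Fin r) ℤ_[ℓ]}
    (h : ∃ y : Matrix (Fin r) (Fin r) ℤ_[ℓ],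
      (g : Matrix (Fin r) (Fin r) ℤ_[ℓ]) = 1 + (ℓ : ℤ_[ℓ]) ^ 2 • y)
    (hg : g ^ p = 1) : g = 1 := by
  have hg' : (g : Matrix (Fin r) (Fin r) ℤ_[ℓ]) ^ p = 1 := by
    have := congrArg (fun u : GL (Fin r) ℤ_[ℓ] ↦ (u : Matrix (Fin r) (Fin r) ℤ_[ℓ])) hg
    simpa using this
  have hall : ∀ k, ∃ y : Matrix (Fin r) (Fin r) ℤ_[ℓ],
      (g : Matrix (Fin r) (Fin r) ℤ_[ℓ]) = 1 + (ℓ : ℤ_[ℓ]) ^ (2 + k) • y := by
    intro k
    induction k with
    | zero => exact h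
    | succ k ih =>
      obtain ⟨y, hy⟩ := ih
      rw [hy] at hg'
      obtain ⟨y', hy'⟩ := congr_step hp (by omega) hg'
      refine ⟨y', ?_⟩
      rw [hy, hy', smul_smul, ← pow_succ, add_assoc]
  ext i j
  have h1 : ∀ k, (ℓ : ℤ_[ℓ]) ^ k ∣ ((g : Matrix (Fin r) (Fin r) ℤ_[ℓ]) i j -
      (1 : Matrix (Fin r) (Fin r) ℤ_[ℓ]) i j) := by
    intro k
    obtain ⟨y, hy⟩ := hall k
    rw [hy, Matrix.add_apply, add_sub_cancel_left, Matrix.smul_apply, smul_eq_mul]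
    exact Dvd.dvd.mul_right (pow_dvd_pow _ (by omega)) _
  have h2 : (g : Matrix (Fin r) (Fin r) ℤ_[ℓ]) i j - (1 : Matrix (Fin r) (Fin r) ℤ_[ℓ]) i j = 0 := by
    by_contra hne
    set w := (g : Matrix (Fin r) (Fin r) ℤ_[ℓ]) i j - (1 : Matrix (Fin r) (Fin r) ℤ_[ℓ]) i j
    have h3 := (PadicInt.mem_span_pow_iff_le_valuation w hne (w.valuation + 1)).mp
      (Ideal.mem_span_singleton.mpr (h1 _))
    omega
  exact sub_eq_zero.mp h2

/-- An element of finite order congruent to one modulo `ℓ ^ 2` is one. -/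
lemma eq_one_of_finite_order {n : ℕ} (hn : 0 < n) {g : GL (Fin r) ℤ_[ℓ]}
    (h : ∃ y : Matrix (Fin r) (Fin r) ℤ_[ℓ],
      (g : Matrix (Fin r) (Fin r) ℤ_[ℓ]) = 1 + (ℓ : ℤ_[ℓ]) ^ 2 • y)
    (hg : g ^ n = 1) : g = 1 := by
  induction n using Nat.strong_induction_on with
  | _ n ih =>
    by_cases h1 : n = 1
    · subst h1
      simpa using hg
    · obtain ⟨p, hp, m, rfl⟩ := Nat.exists_prime_and_dvd h1
      have hm : 0 < m := Nat.pos_of_mul_pos_left hn |> fun _ ↦ by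
        rcases Nat.eq_zero_or_pos m with h0 | h0
        · subst h0; simp at hn
        · exact h0
      have hgm : g ^ m = 1 := by
        apply eq_one_of_prime_order hp
        · obtain ⟨y, hy⟩ := h
          obtain ⟨z, hz⟩ := one_add_pow ((ℓ : ℤ_[ℓ]) ^ 2 • y) m
          refine ⟨m * y + (ℓ : ℤ_[ℓ]) ^ 2 • (y ^ 2 * z), ?_⟩
          rw [Units.val_pow_eq_pow_val, hy, hz, smul_add, mul_smul_comm, smul_pow, smul_smul,
            ← pow_two, smul_mul_assoc, add_assoc]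
        · rw [← pow_mul, mul_comm]
          exact hg
      exact ih m (by
        have := hp.two_le
        nlinarith) hm hgm

/-- Congruence modulo `ℓ ^ k`. -/
lemma congr_of_toZModPow {k : ℕ} {A B : Matrix (Fin r) (Fin r) ℤ_[ℓ]}
    (h : A.map (PadicInt.toZModPow k) = B.map (PadicInt.toZModPow k)) :
    ∃ y : Matrix (Fin r) (Fin r) ℤ_[ℓ], A = B + (ℓ : ℤ_[ℓ]) ^ k • y := by
  have h1 : ∀ i j, ∃ w, A i j - B i j = (ℓ : ℤ_[ℓ]) ^ k * w := by
    intro i j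
    have h2 := congrFun (congrFun h i) j
    simp only [Matrix.map_apply] at h2
    have h3 : A i j - B i j ∈ RingHom.ker (PadicInt.toZModPow k : ℤ_[ℓ] →+* ZMod (ℓ ^ k)) := by
      rw [RingHom.mem_ker, map_sub, h2, sub_self]
    rw [PadicInt.ker_toZModPow, Ideal.mem_span_singleton] at h3
    exact h3
  choose w hw using h1
  refine ⟨Matrix.of fun i j ↦ w i j, ?_⟩
  ext i j
  rw [Matrix.add_apply, Matrix.smul_apply, smul_eq_mul, Matrix.of_apply]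
  have := hw i j
  linear_combination this

/-- Elements of a finite group which are congruent modulo `ℓ ^ 2` are equal. -/
lemma eq_of_finite {G : Subgroup (GL (Fin r) ℤ_[ℓ])} (hG : (G : Set (GL (Fin r) ℤ_[ℓ])).Finite)
    {a b : GL (Fin r) ℤ_[ℓ]} (ha : a ∈ G) (hb : b ∈ G)
    (h : (a : Matrix (Fin r) (Fin r) ℤ_[ℓ]).map (PadicInt.toZModPow 2) =
      (b : Matrix (Fin r) (Fin r) ℤ_[ℓ]).map (PadicInt.toZModPow 2)) : a = b := by
  have hfin : Finite G := hG.to_subtype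
  obtain ⟨y, hy⟩ := congr_of_toZModPow h
  have h1 : b⁻¹ * a = 1 := by
    have ho : (b⁻¹ * a) ^ Nat.card G = 1 := by
      have h2 : (⟨b⁻¹ * a, G.mul_mem (G.inv_mem hb) ha⟩ : G) ^ Nat.card G = 1 :=
        pow_card_eq_one'
      have h3 := congrArg Subtype.val h2
      simpa only [SubgroupClass.coe_pow, OneMemClass.coe_one] using h3
    refine eq_one_of_finite_order (Nat.card_pos) ⟨(b⁻¹ : GL (Fin r) ℤ_[ℓ]).val * y, ?_⟩ ho
    rw [Units.val_mul, hy, mul_add, ← Units.val_mul, inv_mul_cancel, mul_smul_comm]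
    rfl
  exact (inv_mul_eq_one.mp h1).symm

/-- A finite group of `ℓ`-adic matrices has at most as many elements as there are matrices modulo
`ℓ ^ 2`. -/
lemma ncard_le {G : Subgroup (GL (Fin r) ℤ_[ℓ])} (hG : (G : Set (GL (Fin r) ℤ_[ℓ])).Finite) :
    (G : Set (GL (Fin r) ℤ_[ℓ])).ncard ≤ Nat.card (Matrix (Fin r) (Fin r) (ZMod (ℓ ^ 2))) := by
  have : NeZero (ℓ ^ 2) := ⟨pow_ne_zero _ (Fact.out : ℓ.Prime).ne_zero⟩
  have hfin : Finite (Matrix (Fin r) (Fin r) (ZMod (ℓ ^ 2))) :=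
    inferInstanceAs (Finite (Fin r → Fin r → ZMod (ℓ ^ 2)))
  rw [← Set.ncard_univ]
  refine Set.ncard_le_ncard_of_injOn
    (fun a : GL (Fin r) ℤ_[ℓ] ↦ (a : Matrix (Fin r) (Fin r) ℤ_[ℓ]).map (PadicInt.toZModPow 2))
    (fun _ _ ↦ Set.mem_univ _) ?_ Set.finite_univ
  intro a ha b hb hab
  exact eq_of_finite hG ha hb hab

/-- An infinite group of integral matrices cannot be contained in finite groups modulo high powers
of `ℓ`. -/
theorem exists_level {Γ : Set (GL (Fin r) ℤ)} (hΓ : Γ.Infinite) :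
    ∃ k : ℕ, ∀ k', k ≤ k' → ∀ G : Subgroup (GL (Fin r) ℤ_[ℓ]),
      (∀ γ ∈ Γ, ∃ g ∈ G, (g : Matrix (Fin r) (Fin r) ℤ_[ℓ]).map (PadicInt.toZModPow k') =
        (γ : Matrix (Fin r) (Fin r) ℤ).map (Int.cast : ℤ → ZMod (ℓ ^ k'))) →
      ¬ (G : Set (GL (Fin r) ℤ_[ℓ])).Finite := by
  classical
  set B := Nat.card (Matrix (Fin r) (Fin r) (ZMod (ℓ ^ 2))) with hB
  obtain ⟨S, hSΓ, hS⟩ := hΓ.exists_subset_card_eq (B + 1)
  -- a level at which the elements of `S` are distinct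
  obtain ⟨k, hk⟩ : ∃ k : ℕ, ∀ γ ∈ S, ∀ γ' ∈ S, γ ≠ γ' → ∃ i j,
      ((γ : Matrix (Fin r) (Fin r) ℤ) i j - (γ' : Matrix (Fin r) (Fin r) ℤ) i j).natAbs < k ∧
      (γ : Matrix (Fin r) (Fin r) ℤ) i j ≠ (γ' : Matrix (Fin r) (Fin r) ℤ) i j := by
    let f : (GL (Fin r) ℤ × GL (Fin r) ℤ) × (Fin r × Fin r) → ℕ := fun q ↦
      ((q.1.1 : Matrix (Fin r) (Fin r) ℤ) q.2.1 q.2.2 -
        (q.1.2 : Matrix (Fin r) (Fin r) ℤ) q.2.1 q.2.2).natAbs
    refine ⟨((S ×ˢ S) ×ˢ (Finset.univ : Finset (Fin r × Fin r))).sup f + 1, ?_⟩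
    intro γ hγ γ' hγ' hne
    obtain ⟨i, j, hij⟩ : ∃ i j, (γ : Matrix (Fin r) (Fin r) ℤ) i j ≠
        (γ' : Matrix (Fin r) (Fin r) ℤ) i j := by
      by_contra! h
      exact hne (Units.ext (by ext i j; exact h i j))
    refine ⟨i, j, ?_, hij⟩
    have e1 : f ((γ, γ'), (i, j)) ≤ ((S ×ˢ S) ×ˢ (Finset.univ : Finset (Fin r × Fin r))).sup f :=
      Finset.le_sup (Finset.mem_product.mpr ⟨Finset.mem_product.mpr ⟨hγ, hγ'⟩,
        Finset.mem_univ _⟩)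
    exact Nat.lt_succ_of_le e1
  refine ⟨k, ?_⟩
  intro k' hk' G hG hfin
  choose! φ hφG hφ using hG
  have hinj : Set.InjOn φ (S : Set (GL (Fin r) ℤ)) := by
    intro γ hγ γ' hγ' heq
    by_contra hne
    obtain ⟨i, j, hlt, hij⟩ := hk γ hγ γ' hγ' hne
    have h1 := hφ γ (hSΓ hγ)
    have h2 := hφ γ' (hSΓ hγ')
    rw [heq, h2] at h1
    have h3 := congrFun (congrFun h1 i) j
    simp only [Matrix.map_apply] at h3
    rw [eq_comm, ZMod.intCast_eq_intCast_iff_dvd_sub] at h3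
    have h4 : (ℓ ^ k' : ℕ) ∣ ((γ' : Matrix (Fin r) (Fin r) ℤ) i j -
        (γ : Matrix (Fin r) (Fin r) ℤ) i j).natAbs := Int.natCast_dvd.mp h3
    have h5 : 0 < ((γ' : Matrix (Fin r) (Fin r) ℤ) i j -
        (γ : Matrix (Fin r) (Fin r) ℤ) i j).natAbs := by
      rw [Int.natAbs_pos, sub_ne_zero]
      exact fun h ↦ hij h.symm
    have h6 := Nat.le_of_dvd h5 h4
    have h7 : k' < ℓ ^ k' := Nat.lt_pow_self (Fact.out : ℓ.Prime).one_lt
    have h8 : ((γ' : Matrix (Fin r) (Fin r) ℤ) i j -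
        (γ : Matrix (Fin r) (Fin r) ℤ) i j).natAbs = ((γ : Matrix (Fin r) (Fin r) ℤ) i j -
        (γ' : Matrix (Fin r) (Fin r) ℤ) i j).natAbs := by
      rw [← Int.natAbs_neg, neg_sub]
    omega
  have h1 : (S : Set (GL (Fin r) ℤ)).ncard ≤ (G : Set (GL (Fin r) ℤ_[ℓ])).ncard :=
    Set.ncard_le_ncard_of_injOn φ (fun γ hγ ↦ hφG γ (hSΓ hγ)) hinj hfin
  rw [Set.ncard_coe_finset, hS] at h1
  have h2 := ncard_le hfin
  omega

end Pool.Agent.Helper46.GG
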