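import Mathlib
import Pool.Agent.Helper46.GG.Dense
import Pool.Agent.Helper46.GG.Finite
import Pool.Agent.Helper46.GG.Torsion
import Pool.Agent.Helper46.GG.Compact

/-!
# Groups of `ℓ`-adic isometries which contain a Zariski dense group modulo a power of `ℓ`
-/

set_option linter.unusedSectionVars false
set_option linter.unusedVariables false

namespace Pool.Agent.Helper46.GG

open Matrix Module Pool.Agent.Helper88.MT

section Lie

variable {r : ℕ} {F : Type*} [Field F]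

/-- Right translation. -/
lemma exists_translate_right {ι : Type*} [Fintype ι] [DecidableEq ι] (M : Matrix ι ι F)
    (f : MvPolynomial (ι × ι) F) :
    ∃ f' : MvPolynomial (ι × ι) F, ∀ {R : Type _} [CommRing R] [Algebra F R] (A : Matrix ι ι R),
      evM A f' = evM (A * M.map (algebraMap F R)) f := by
  refine ⟨MvPolynomial.aeval (fun p : ι × ι ↦ ∑ j, MvPolynomial.X (p.1, j) *
    MvPolynomial.C (M j p.2)) f, ?_⟩
  intro R _ _ A
  unfold evM
  rw [MvPolynomial.comp_aeval_apply]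
  congr 2
  ext p
  simp [Matrix.mul_apply]

lemma dualM_mul_map {ι : Type*} [Fintype ι] [DecidableEq ι] (M x B h y : Matrix ι ι F)
    (h1 : M * B = h) (h2 : M * x * B = h * y) :
    dualM M x * B.map (algebraMap F (DualNumber F)) = dualM h y := by
  have hal : ∀ a : F, algebraMap F (DualNumber F) a = TrivSqZeroExt.inl a := fun a ↦ rfl
  ext i j
  · rw [Matrix.mul_apply, TrivSqZeroExt.fst_sum]
    simp only [dualM, Matrix.map_apply, hal, TrivSqZeroExt.fst_mul,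
      TrivSqZeroExt.fst_inl, TrivSqZeroExt.fst_add, TrivSqZeroExt.fst_inr, add_zero]
    rw [← Matrix.mul_apply, h1]
  · rw [Matrix.mul_apply, TrivSqZeroExt.snd_sum]
    simp only [dualM, Matrix.map_apply, hal, TrivSqZeroExt.snd_mul,
      TrivSqZeroExt.snd_inl, TrivSqZeroExt.snd_add, TrivSqZeroExt.snd_inr, zero_add,
      TrivSqZeroExt.fst_inl, smul_eq_mul, MulOpposite.smul_eq_mul_unop,
      MulOpposite.unop_op, mul_zero]
    rw [← h2, ← Matrix.mul_apply]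

/-- The Lie algebra of the Zariski closure as a subspace. -/
noncomputable def lieS (Γ : Subgroup (GL (Fin r) F)) :
    Submodule F (Matrix (Fin r) (Fin r) F) where
  carrier := {x | ∀ f ∈ van F (mats Γ), der x f ∈ van F (mats Γ)}
  add_mem' := by
    intro x y hx hy f hf
    rw [der_add, Derivation.add_apply]
    exact Submodule.add_mem _ (hx f hf) (hy f hf)
  zero_mem' := by
    intro f _
    rw [der_zero, Derivation.zero_apply]
    exact Submodule.zero_mem _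
  smul_mem' := by
    intro c x hx f hf
    rw [der_smul, Derivation.smul_apply]
    exact Submodule.smul_mem _ c (hx f hf)

lemma mem_lieS {Γ : Subgroup (GL (Fin r) F)} {x : Matrix (Fin r) (Fin r) F} :
    x ∈ lieS Γ ↔ ∀ f ∈ van F (mats Γ), der x f ∈ van F (mats Γ) := Iff.rfl

/-- The Lie algebra is stable under conjugation. -/
lemma lieS_conj {Γ : Subgroup (GL (Fin r) F)} {x : Matrix (Fin r) (Fin r) F} (hx : x ∈ lieS Γ)
    {g : GL (Fin r) F} (hg : g ∈ Γ) :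
    (g : Matrix (Fin r) (Fin r) F) * x * ((g⁻¹ : GL (Fin r) F) : Matrix (Fin r) (Fin r) F) ∈
      lieS Γ := by
  intro f hf
  rw [mem_van_self]
  rintro _ ⟨h, hh, rfl⟩
  obtain ⟨f', hf'⟩ := exists_translate_right
    ((g⁻¹ : GL (Fin r) F) : Matrix (Fin r) (Fin r) F) f
  have h2 : f' ∈ van F (mats Γ) := by
    rw [mem_van_self]
    rintro _ ⟨a, ha, rfl⟩
    rw [hf']
    have e1 : ((g⁻¹ : GL (Fin r) F) : Matrix (Fin r) (Fin r) F).map (algebraMap F F) =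
        ((g⁻¹ : GL (Fin r) F) : Matrix (Fin r) (Fin r) F) := by ext i j; simp
    rw [e1]
    exact mem_van_self.mp hf _ ⟨a * g⁻¹, Γ.mul_mem ha (Γ.inv_mem hg), rfl⟩
  have h3 := mem_van_self.mp (hx f' h2) _ ⟨h * g, Γ.mul_mem hh hg, rfl⟩
  have h4 := hf' (dualM ((h * g : GL (Fin r) F) : Matrix (Fin r) (Fin r) F) x)
  rw [dualM_mul_map _ x _ (h : Matrix (Fin r) (Fin r) F)
    ((g : Matrix (Fin r) (Fin r) F) * x * ((g⁻¹ : GL (Fin r) F) : Matrix (Fin r) (Fin r) F))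
    (by rw [← Units.val_mul, mul_inv_cancel_right])
    (by rw [Units.val_mul]; simp only [Matrix.mul_assoc]), evM_dualM, evM_dualM, h3] at h4
  have h5 := congrArg TrivSqZeroExt.snd h4
  simp only [TrivSqZeroExt.snd_add, TrivSqZeroExt.snd_inl, TrivSqZeroExt.snd_inr,
    zero_add] at h5
  exact h5.symm

end Lie

section Finite

variable {ι : Type*} [Fintype ι] [DecidableEq ι]
variable {k : Type*} [Field k] [CharZero k]

/-- If a finite set is dense in the orthogonal group then the Lie algebra is zero. -/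
lemma soT_eq_zero_of_finite {ψ : Matrix ι ι k} (hdet : ψ.det ≠ 0) {N : Set (ι → k)}
    {S : Set (Matrix ι ι k)} (hS : S.Finite)
    (hdense : ∀ f ∈ van k S, f ∈ van k (SOT ψ N)) {x : Matrix ι ι k} (hx : x ∈ soT ψ N) :
    x = 0 := by
  classical
  -- a polynomial equal to zero at the elements different from one
  obtain ⟨e, he1, he⟩ : ∃ e : MvPolynomial (ι × ι) k, evM (1 : Matrix ι ι k) e ≠ 0 ∧
      ∀ M ∈ S, M ≠ 1 → evM M e = 0 := by
    have hfac : ∀ M : Matrix ι ι k, ∃ q : MvPolynomial (ι × ι) k, M ≠ 1 →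
        (evM (1 : Matrix ι ι k) q ≠ 0 ∧ evM M q = 0) := by
      intro M
      by_cases h : M = 1
      · exact ⟨0, fun h' ↦ absurd h h'⟩
      · obtain ⟨i, j, hij⟩ : ∃ i j, M i j ≠ (1 : Matrix ι ι k) i j := by
          by_contra! h'
          exact h (by ext i j; exact h' i j)
        refine ⟨MvPolynomial.X (i, j) - MvPolynomial.C (M i j), fun _ ↦ ⟨?_, ?_⟩⟩
        · rw [map_sub, evM_X, evM_C]
          simp only [Algebra.algebraMap_self, RingHom.id_apply]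
          exact sub_ne_zero.mpr (Ne.symm hij)
        · rw [map_sub, evM_X, evM_C]
          exact sub_self _
    choose q hq using hfac
    refine ⟨∏ M ∈ hS.toFinset.erase 1, q M, ?_, ?_⟩
    · rw [map_prod, Finset.prod_ne_zero_iff]
      intro M hM
      exact (hq M (Finset.ne_of_mem_erase hM)).1
    · intro M hM hne
      rw [map_prod]
      refine Finset.prod_eq_zero (i := M) (Finset.mem_erase.mpr ⟨hne, hS.mem_toFinset.mpr hM⟩) ?_
      exact (hq M hne).2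
  ext i j
  set g : MvPolynomial (ι × ι) k := e * (MvPolynomial.X (i, j) -
    MvPolynomial.C ((1 : Matrix ι ι k) i j)) with hg
  have h1 : g ∈ van k S := by
    rw [mem_van_self]
    intro M hM
    rw [hg, map_mul]
    by_cases h : M = 1
    · subst h
      rw [map_sub, evM_X, evM_C]
      simp
    · rw [he M hM h, zero_mul]
  have h2 := der_mem_van_SOT hdet hx g (hdense g h1)
  have h3 := mem_van_self.mp h2 1 (one_mem_SOT ψ N)
  have e2 : der x (MvPolynomial.C ((1 : Matrix ι ι k) i j)) = 0 := Derivation.map_algebraMap _ _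
  rw [hg, Derivation.leibniz, map_add, smul_eq_mul, smul_eq_mul, map_mul, map_mul, map_sub,
    map_sub, map_sub, e2, map_zero, sub_zero, evM_der_X, evM_X, evM_C] at h3
  have h4 : x.map (algebraMap k k) = x := by ext i j; simp
  rw [h4, Matrix.one_mul] at h3
  simp only [Algebra.algebraMap_self, RingHom.id_apply, sub_self, zero_mul, add_zero] at h3
  exact (mul_eq_zero.mp h3).resolve_left he1

end Finite

section Conj

variable {ι : Type*} [Fintype ι] [DecidableEq ι] {F : Type*} [Field F] [CharZero F]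

/-- The Lie algebra is stable under conjugation by isometries fixing the subspace. -/
lemma soT_conj {ψ : Matrix ι ι F} {N : Set (ι → F)} {M M' : Matrix ι ι F}
    (hM : Mᵀ * ψ * M = ψ) (hMN : ∀ w ∈ N, M *ᵥ w = w) (hMM' : M * M' = 1) {x : Matrix ι ι F}
    (hx : x ∈ soT ψ N) : M * x * M' ∈ soT ψ N := by
  have hM'M : M' * M = 1 := mul_eq_one_comm.mp hMM'
  have hM' : M'ᵀ * ψ * M' = ψ := by
    calc M'ᵀ * ψ * M' = M'ᵀ * (Mᵀ * ψ * M) * M' := by rw [hM]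
      _ = (M * M')ᵀ * ψ * (M * M') := by rw [transpose_mul]; simp only [Matrix.mul_assoc]
      _ = ψ := by rw [hMM', transpose_one, Matrix.one_mul, Matrix.mul_one]
  refine mem_soT_of_skew ?_ ?_
  · intro v w
    have h1 : bil ψ ((M * x * M') *ᵥ v) w = bil ψ (x *ᵥ (M' *ᵥ v)) (M' *ᵥ w) := by
      rw [← bil_mulVec hM' ((M * x * M') *ᵥ v) w]
      congr 1
      rw [mulVec_mulVec, mulVec_mulVec, Matrix.mul_assoc M, ← Matrix.mul_assoc M', hM'M,
        Matrix.one_mul]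
    have h2 : bil ψ v ((M * x * M') *ᵥ w) = bil ψ (M' *ᵥ v) (x *ᵥ (M' *ᵥ w)) := by
      rw [← bil_mulVec hM' v ((M * x * M') *ᵥ w)]
      congr 1
      rw [mulVec_mulVec, mulVec_mulVec, Matrix.mul_assoc M, ← Matrix.mul_assoc M', hM'M,
        Matrix.one_mul]
    rw [h1, h2, soT_skew hx]
  · intro w hw
    have h1 : M' *ᵥ w = w := by
      conv_lhs => rw [← hMN w hw]
      rw [mulVec_mulVec, hM'M, one_mulVec]
    rw [← mulVec_mulVec, ← mulVec_mulVec, h1, hx.2 w hw, mulVec_zero]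

end Conj

section Main

variable {r : ℕ}

/-- The rational matrix of an integral matrix. -/
def toQ (γ : GL (Fin r) ℤ) : Matrix (Fin r) (Fin r) ℚ :=
  (γ : Matrix (Fin r) (Fin r) ℤ).map (Int.cast : ℤ → ℚ)

lemma toQ_mul (γ γ' : GL (Fin r) ℤ) : toQ (γ * γ') = toQ γ * toQ γ' := by
  unfold toQ
  rw [Units.val_mul]
  exact Matrix.map_mul (f := Int.castRingHom ℚ)

lemma toQ_one : toQ (1 : GL (Fin r) ℤ) = 1 := by
  unfold toQ
  rw [Units.val_one]
  exact Matrix.map_one _ (Int.cast_zero) (Int.cast_one)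

lemma toQ_injective : Function.Injective (toQ : GL (Fin r) ℤ → _) := by
  intro γ γ' h
  apply Units.ext
  ext i j
  have := congrFun (congrFun h i) j
  simp only [toQ, Matrix.map_apply] at this
  exact_mod_cast this

lemma toQ_map (ℓ : ℕ) [Fact ℓ.Prime] (γ : GL (Fin r) ℤ) :
    (toQ γ).map (algebraMap ℚ ℚ_[ℓ]) = co (toZ ℓ γ) := by
  ext i j
  simp [toQ, co, toZ, Matrix.map_apply]

/-- The image of an `ℓ`-adic group over the fraction field. -/
noncomputable abbrev gal {ℓ : ℕ} [Fact ℓ.Prime] (G : Subgroup (GL (Fin r) ℤ_[ℓ])) :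
    Subgroup (GL (Fin r) ℚ_[ℓ]) :=
  G.map (Matrix.GeneralLinearGroup.map (algebraMap ℤ_[ℓ] ℚ_[ℓ]))

lemma mem_mats_gal {ℓ : ℕ} [Fact ℓ.Prime] {G : Subgroup (GL (Fin r) ℤ_[ℓ])}
    {M : Matrix (Fin r) (Fin r) ℚ_[ℓ]} (hM : M ∈ mats (gal G)) :
    ∃ g ∈ G, co (g : Matrix (Fin r) (Fin r) ℤ_[ℓ]) = M := by
  obtain ⟨_, ⟨g, hg, rfl⟩, rfl⟩ := hM
  exact ⟨g, hg, rfl⟩

/-- A group of `ℓ`-adic isometries of determinant one which contains, modulo a high power of `ℓ`,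
a Zariski dense group of integral isometries is Zariski dense. -/
theorem main_det_one {ψ : Matrix (Fin r) (Fin r) ℚ} (hψ : ψᵀ = ψ) (hdet : ψ.det ≠ 0)
    {N : Submodule ℚ (Fin r → ℚ)} (hN : ∀ v ∈ N, (∀ w ∈ N, bil ψ v w = 0) → v = 0)
    (h4 : finrank ℚ (orthS ψ N) ≠ 4) {Γ : Subgroup (GL (Fin r) ℤ)}
    (hΓ : ∀ γ ∈ Γ, (toQ γ)ᵀ * ψ * toQ γ = ψ ∧ ∀ w ∈ N, toQ γ *ᵥ w = w)
    (hdense : ∀ f ∈ van ℚ (toQ '' (Γ : Set (GL (Fin r) ℤ))),
      f ∈ van ℚ (SOT ψ (N : Set (Fin r → ℚ))))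
    (ℓ : ℕ) [Fact ℓ.Prime] :
    ∃ k : ℕ, ∀ k', k ≤ k' → ∀ G : Subgroup (GL (Fin r) ℤ_[ℓ]),
      (∀ g ∈ G, co (g : Matrix (Fin r) (Fin r) ℤ_[ℓ]) ∈
        SOT (ψ.map (algebraMap ℚ ℚ_[ℓ])) (smap ℚ_[ℓ] N : Set (Fin r → ℚ_[ℓ]))) →
      (∀ γ ∈ Γ, ∃ g ∈ G, (g : Matrix (Fin r) (Fin r) ℤ_[ℓ]).map (PadicInt.toZModPow k') =
        (γ : Matrix (Fin r) (Fin r) ℤ).map (Int.cast : ℤ → ZMod (ℓ ^ k'))) →
      (∀ x, x ∈ lieGL (gal G : Set (GL (Fin r) ℚ_[ℓ])) ↔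
        x ∈ soT (ψ.map (algebraMap ℚ ℚ_[ℓ])) (smap ℚ_[ℓ] N : Set (Fin r → ℚ_[ℓ]))) ∧
      ∀ f ∈ van ℚ_[ℓ] (mats (gal G)),
        ∀ M ∈ SOT (ψ.map (algebraMap ℚ ℚ_[ℓ])) (smap ℚ_[ℓ] N : Set (Fin r → ℚ_[ℓ])),
          evM M f = 0 := by
  classical
  set ψ' := ψ.map (algebraMap ℚ ℚ_[ℓ]) with hψ'def
  set N' : Set (Fin r → ℚ_[ℓ]) := (smap ℚ_[ℓ] N : Set (Fin r → ℚ_[ℓ])) with hN'def
  have hψ' : ψ'ᵀ = ψ' := by
    rw [hψ'def, ← Matrix.transpose_map, hψ]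
  have hdet' : ψ'.det ≠ 0 := by
    have : (ψ.map (algebraMap ℚ ℚ_[ℓ])).det = algebraMap ℚ ℚ_[ℓ] ψ.det :=
      (RingHom.map_det _ _).symm
    rw [hψ'def, this]
    simpa using hdet
  set 𝔰 : Submodule ℚ_[ℓ] (Matrix (Fin r) (Fin r) ℚ_[ℓ]) := soTS ψ' N' with h𝔰
  have hmem𝔰 : ∀ x, x ∈ 𝔰 ↔ x ∈ soT ψ' N' := fun x ↦ Iff.rfl
  -- the elements of `Γ`
  have hinvQ : ∀ γ : GL (Fin r) ℤ, co (toZ ℓ γ) * co (toZ ℓ γ⁻¹) = 1 := by
    intro γ
    rw [← co_mul, ← toZ_mul, mul_inv_cancel, toZ_one]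
    exact Matrix.map_one _ (map_zero _) (map_one _)
  have hΓ' : ∀ γ ∈ Γ, (co (toZ ℓ γ))ᵀ * ψ' * co (toZ ℓ γ) = ψ' ∧
      ∀ w ∈ N', co (toZ ℓ γ) *ᵥ w = w := by
    intro γ hγ
    obtain ⟨h1, h2⟩ := hΓ γ hγ
    rw [← toQ_map]
    refine ⟨?_, vmap_smap_fix ?_⟩
    · rw [hψ'def, ← Matrix.transpose_map, ← Matrix.map_mul, ← Matrix.map_mul, h1]
    · intro w hw
      have h3 : (toQ γ).map (algebraMap ℚ ℚ_[ℓ]) *ᵥ vmap ℚ_[ℓ] w = vmap ℚ_[ℓ] (toQ γ *ᵥ w) := by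
        ext i; simp [mulVec, dotProduct, vmap]
      rw [h3, h2 w hw]
  have hstab : ∀ γ ∈ Γ, ∀ w ∈ 𝔰, co (toZ ℓ γ) * w * co (toZ ℓ γ⁻¹) ∈ 𝔰 := by
    intro γ hγ w hw
    exact soT_conj (hΓ' γ hγ).1 (hΓ' γ hγ).2 (hinvQ γ) hw
  have hirr : ∀ W : Submodule ℚ_[ℓ] (Matrix (Fin r) (Fin r) ℚ_[ℓ]), W ≤ 𝔰 →
      (∀ γ ∈ Γ, ∀ w ∈ W, co (toZ ℓ γ) * w * co (toZ ℓ γ⁻¹) ∈ W) → W = ⊥ ∨ W = 𝔰 := by
    intro W hW1 hW2
    have hS : ∀ M ∈ toQ '' (Γ : Set (GL (Fin r) ℤ)), Mᵀ * ψ * M = ψ := by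
      rintro _ ⟨γ, hγ, rfl⟩
      exact (hΓ γ hγ).1
    have hst : ∀ M ∈ toQ '' (Γ : Set (GL (Fin r) ℤ)), ∀ w ∈ W,
        M.map (algebraMap ℚ ℚ_[ℓ]) * w * (M⁻¹).map (algebraMap ℚ ℚ_[ℓ]) ∈ W := by
      rintro _ ⟨γ, hγ, rfl⟩ w hw
      have h1 : (toQ γ)⁻¹ = toQ γ⁻¹ := by
        refine Matrix.inv_eq_right_inv ?_
        rw [← toQ_mul, mul_inv_cancel, toQ_one]
      rw [h1, toQ_map, toQ_map]
      exact hW2 γ hγ w hw
    rcases dense_irr (F := ℚ_[ℓ]) hψ hdet hN h4 hS hdense (fun x hx ↦ hW1 hx) hst with h | h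
    · exact Or.inl h
    · exact Or.inr (le_antisymm hW1 fun x hx ↦ h x hx)
  obtain ⟨k₁, hk₁⟩ := exists_level_irr (ℓ := ℓ) hstab hirr
  obtain ⟨k₂, hk₂⟩ : ∃ k₂ : ℕ, (Γ : Set (GL (Fin r) ℤ)).Infinite → ∀ k', k₂ ≤ k' →
      ∀ G : Subgroup (GL (Fin r) ℤ_[ℓ]),
      (∀ γ ∈ (Γ : Set (GL (Fin r) ℤ)), ∃ g ∈ G,
        (g : Matrix (Fin r) (Fin r) ℤ_[ℓ]).map (PadicInt.toZModPow k') =
        (γ : Matrix (Fin r) (Fin r) ℤ).map (Int.cast : ℤ → ZMod (ℓ ^ k'))) →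
      ¬ (G : Set (GL (Fin r) ℤ_[ℓ])).Finite := by
    by_cases h : (Γ : Set (GL (Fin r) ℤ)).Infinite
    · obtain ⟨k₂, hk₂⟩ := exists_level (ℓ := ℓ) h
      exact ⟨k₂, fun _ ↦ hk₂⟩
    · exact ⟨0, fun h' ↦ absurd h' h⟩
  refine ⟨max k₁ k₂, ?_⟩
  intro k' hk' G hG hcong
  have hGdet : ∀ a ∈ gal G, (a : Matrix (Fin r) (Fin r) ℚ_[ℓ]).det = 1 := by
    rintro _ ⟨g, hg, rfl⟩
    exact (hG g hg).2.1
  -- the Lie algebra is contained in the orthogonal one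
  have hle : lieS (gal G) ≤ 𝔰 := by
    intro x hx
    refine mem_soT_of_tangent (R := ℚ_[ℓ]) (S := mats (gal G)) ?_ ?_ ?_
    · intro M hM
      obtain ⟨g, hg, rfl⟩ := mem_mats_gal hM
      have hid : ψ'.map (algebraMap ℚ_[ℓ] ℚ_[ℓ]) = ψ' := by ext i j; simp
      rw [hid]
      exact (hG g hg).1
    · intro M hM w hw
      obtain ⟨g, hg, rfl⟩ := mem_mats_gal hM
      exact (hG g hg).2.2 w hw
    · intro f hf
      exact mem_van_self.mp (hx f (mem_van_self.mpr hf)) 1 ⟨1, (gal G).one_mem, rfl⟩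
  have hconj : ∀ g ∈ G, ∀ w ∈ lieS (gal G), co (g : Matrix (Fin r) (Fin r) ℤ_[ℓ]) * w *
        co ((g⁻¹ : GL (Fin r) ℤ_[ℓ]) : Matrix (Fin r) (Fin r) ℤ_[ℓ]) ∈ lieS (gal G) := by
    intro g hg w hw
    have h1 := lieS_conj hw (g := Matrix.GeneralLinearGroup.map (algebraMap ℤ_[ℓ] ℚ_[ℓ]) g)
      ⟨g, hg, rfl⟩
    rw [← map_inv] at h1
    exact h1
  have heq : lieS (gal G) = 𝔰 := by
    rcases hk₁ k' (le_trans (le_max_left _ _) hk') G hcong _ hle hconj with h | h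
    · -- the group is finite
      have hfin : (gal G : Set (GL (Fin r) ℚ_[ℓ])).Finite := by
        apply finite_of_lie_zero
        intro x hx
        have hx' : x ∈ lieS (gal G) := hx
        rw [h] at hx'
        exact (Submodule.mem_bot _).mp hx'
      have hfinG : (G : Set (GL (Fin r) ℤ_[ℓ])).Finite := by
        refine Set.Finite.of_injOn
          (f := Matrix.GeneralLinearGroup.map (algebraMap ℤ_[ℓ] ℚ_[ℓ]))
          (t := (gal G : Set (GL (Fin r) ℚ_[ℓ]))) (fun g hg ↦ ⟨g, hg, rfl⟩) ?_ hfin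
        intro a _ b _ hab
        apply Units.ext
        ext i j
        have h1 := congrArg (fun u : GL (Fin r) ℚ_[ℓ] ↦
          (u : Matrix (Fin r) (Fin r) ℚ_[ℓ]) i j) hab
        have h2 : (((a : Matrix (Fin r) (Fin r) ℤ_[ℓ]) i j : ℤ_[ℓ]) : ℚ_[ℓ]) =
            ((b : Matrix (Fin r) (Fin r) ℤ_[ℓ]) i j : ℤ_[ℓ]) := h1
        exact Subtype.ext h2
      have hΓfin : ¬ (Γ : Set (GL (Fin r) ℤ)).Infinite := fun hinf ↦
        hk₂ hinf k' (le_trans (le_max_right _ _) hk') G hcong hfinG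
      rw [Set.not_infinite] at hΓfin
      rw [h]
      symm
      rw [eq_bot_iff]
      intro x hx
      have hx' := soT_smap_le (F := ℚ_[ℓ]) (ψ := ψ) (N := N) hx
      have hzero : soTS ψ (N : Set (Fin r → ℚ)) = ⊥ := by
        rw [eq_bot_iff]
        intro y hy
        rw [Submodule.mem_bot]
        exact soT_eq_zero_of_finite hdet (hΓfin.image toQ) hdense hy
      rw [hzero, mspan] at hx'
      have hset : ((fun x : Matrix (Fin r) (Fin r) ℚ ↦ x.map (algebraMap ℚ ℚ_[ℓ])) ''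
          ((⊥ : Submodule ℚ (Matrix (Fin r) (Fin r) ℚ)) : Set (Matrix (Fin r) (Fin r) ℚ))) =
          {0} := by
        rw [Submodule.bot_coe, Set.image_singleton, Matrix.map_zero _ (map_zero _)]
      rw [hset, Submodule.span_zero_singleton] at hx'
      exact hx'
    · exact h
  refine ⟨?_, ?_⟩
  · intro x
    rw [mem_lieGL_iff hGdet, ← mem_lieS, heq]
    exact hmem𝔰 x
  · intro f hf M hM
    refine evM_eq_zero_of_mem_SOT hψ' hdet' (nondeg_smap hN)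
      (𝓘 := (van ℚ_[ℓ] (mats (gal G)) : Set (MvPolynomial (Fin r × Fin r) ℚ_[ℓ]))) ?_ ?_ hM f hf
    · intro x hx f hf
      have hx' : x ∈ lieS (gal G) := by rw [heq]; exact hx
      exact hx' f hf
    · intro f hf
      exact mem_van_self.mp hf 1 ⟨1, (gal G).one_mem, rfl⟩

end Main

end Pool.Agent.Helper46.GG
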