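import Mathlib
import Pool.Agent.Helper46.GG.Main

/-!
# Subgroups of finite index of Zariski dense groups are Zariski dense
-/

set_option linter.unusedSectionVars false
set_option linter.unusedVariables false

namespace Pool.Agent.Helper46.GG

open Matrix Module Pool.Agent.Helper88.MT

variable {r : ℕ} {F : Type*} [Field F]

/-- The Lie algebra is stable under conjugation by the normaliser. -/
lemma lieS_conj_normal {Γ : Subgroup (GL (Fin r) F)} {x : Matrix (Fin r) (Fin r) F}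
    (hx : x ∈ lieS Γ) {g : GL (Fin r) F} (hg : ∀ a ∈ Γ, g * a * g⁻¹ ∈ Γ)
    (hg' : ∀ a ∈ Γ, g⁻¹ * a * g ∈ Γ) :
    (g : Matrix (Fin r) (Fin r) F) * x * ((g⁻¹ : GL (Fin r) F) : Matrix (Fin r) (Fin r) F) ∈
      lieS Γ := by
  intro f hf
  rw [mem_van_self]
  rintro _ ⟨h, hh, rfl⟩
  obtain ⟨f₁, hf₁⟩ := exists_translate_right
    ((g⁻¹ : GL (Fin r) F) : Matrix (Fin r) (Fin r) F) f
  obtain ⟨f', hf'⟩ := exists_translate (g : Matrix (Fin r) (Fin r) F) f₁
  have hid : ∀ A : Matrix (Fin r) (Fin r) F, A.map (algebraMap F F) = A := fun A ↦ by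
    ext i j; simp
  have h2 : f' ∈ van F (mats Γ) := by
    rw [mem_van_self]
    rintro _ ⟨a, ha, rfl⟩
    rw [hf', hf₁, hid, hid]
    exact mem_van_self.mp hf _ ⟨g * a * g⁻¹, hg a ha, rfl⟩
  have h3 := mem_van_self.mp (hx f' h2) _ ⟨g⁻¹ * h * g, hg' h hh, rfl⟩
  have h4 := hf' (dualM ((g⁻¹ * h * g : GL (Fin r) F) : Matrix (Fin r) (Fin r) F) x)
  have e1 : (g : Matrix (Fin r) (Fin r) F) *
      ((g⁻¹ * h * g : GL (Fin r) F) : Matrix (Fin r) (Fin r) F) =
      ((h * g : GL (Fin r) F) : Matrix (Fin r) (Fin r) F) := by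
    rw [← Units.val_mul]
    congr 1
    group
  rw [map_mul_dualM, e1, hf₁, dualM_mul_map _ x _ (h : Matrix (Fin r) (Fin r) F)
    ((g : Matrix (Fin r) (Fin r) F) * x * ((g⁻¹ : GL (Fin r) F) : Matrix (Fin r) (Fin r) F))
    (by rw [← Units.val_mul, mul_inv_cancel_right])
    (by rw [Units.val_mul]; simp only [Matrix.mul_assoc]), evM_dualM, evM_dualM, h3] at h4
  have h5 := congrArg TrivSqZeroExt.snd h4
  simp only [TrivSqZeroExt.snd_add, TrivSqZeroExt.snd_inl, TrivSqZeroExt.snd_inr,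
    zero_add] at h5
  exact h5.symm

lemma smap_self (N : Submodule F (Fin r → F)) : smap F N = N := by
  unfold smap
  have : (vmap F '' (N : Set (Fin r → F))) = (N : Set (Fin r → F)) := by
    ext v
    constructor
    · rintro ⟨u, hu, rfl⟩
      exact hu
    · intro hv
      exact ⟨v, hv, rfl⟩
  rw [this, Submodule.span_eq]

variable [CharZero F]

/-- The Lie algebra of a dense group of isometries. -/
lemma lieS_of_dense {ψ : Matrix (Fin r) (Fin r) F} (hdet : ψ.det ≠ 0)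
    {N : Submodule F (Fin r → F)} {Γ : Subgroup (GL (Fin r) F)}
    (hΓ : ∀ a ∈ Γ, (a : Matrix (Fin r) (Fin r) F) ∈ SOT ψ (N : Set (Fin r → F)))
    (hdense : ∀ f ∈ van F (mats Γ), f ∈ van F (SOT ψ (N : Set (Fin r → F)))) :
    lieS Γ = soTS ψ (N : Set (Fin r → F)) := by
  apply le_antisymm
  · intro x hx
    refine mem_soT_of_tangent (R := F) (S := mats Γ) ?_ ?_ ?_
    · rintro _ ⟨g, hg, rfl⟩
      have hid : ψ.map (algebraMap F F) = ψ := by ext i j; simp
      rw [hid]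
      exact (hΓ g hg).1
    · rintro _ ⟨g, hg, rfl⟩ w hw
      exact (hΓ g hg).2.2 w hw
    · intro f hf
      exact mem_van_self.mp (hx f (mem_van_self.mpr hf)) 1 ⟨1, Γ.one_mem, rfl⟩
  · intro x hx f hf
    have h1 := der_mem_van_SOT hdet hx f (hdense f hf)
    rw [mem_van_self] at h1 ⊢
    rintro _ ⟨g, hg, rfl⟩
    exact h1 _ (hΓ g hg)

/-- Subgroups of finite index of Zariski dense groups of isometries are Zariski dense. -/
theorem dense_of_finite_index {ψ : Matrix (Fin r) (Fin r) F} (hψ : ψᵀ = ψ) (hdet : ψ.det ≠ 0)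
    {N : Submodule F (Fin r → F)} (hN : ∀ v ∈ N, (∀ w ∈ N, bil ψ v w = 0) → v = 0)
    (h4 : finrank F (orthS ψ N) ≠ 4) {Γ Γ' : Subgroup (GL (Fin r) F)} (hle : Γ' ≤ Γ)
    (hfi : (Γ'.subgroupOf Γ).FiniteIndex)
    (hΓ : ∀ a ∈ Γ, (a : Matrix (Fin r) (Fin r) F) ∈ SOT ψ (N : Set (Fin r → F)))
    (hdense : ∀ f ∈ van F (mats Γ), f ∈ van F (SOT ψ (N : Set (Fin r → F)))) :
    ∀ f ∈ van F (mats Γ'), f ∈ van F (SOT ψ (N : Set (Fin r → F))) := by
  classical
  set C : Subgroup Γ := (Γ'.subgroupOf Γ).normalCore with hC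
  have hCfi : C.FiniteIndex := by rw [hC]; infer_instance
  set Γ'' : Subgroup (GL (Fin r) F) := C.map Γ.subtype with hΓ''
  have hmem : ∀ a, a ∈ Γ'' ↔ ∃ h : a ∈ Γ, (⟨a, h⟩ : Γ) ∈ C := by
    intro a
    constructor
    · rintro ⟨⟨b, hb⟩, hb', rfl⟩
      exact ⟨hb, hb'⟩
    · rintro ⟨h, h'⟩
      exact ⟨⟨a, h⟩, h', rfl⟩
  have hle'' : Γ'' ≤ Γ' := by
    intro a ha
    obtain ⟨h, h'⟩ := (hmem a).mp ha
    have := Subgroup.normalCore_le (Γ'.subgroupOf Γ) h'
    exact Subgroup.mem_subgroupOf.mp this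
  have hCnormal : C.Normal := by rw [hC]; infer_instance
  have hnormal : ∀ g ∈ Γ, ∀ a ∈ Γ'', g * a * g⁻¹ ∈ Γ'' := by
    intro g hg a ha
    obtain ⟨h, h'⟩ := (hmem a).mp ha
    refine (hmem _).mpr ⟨Γ.mul_mem (Γ.mul_mem hg h) (Γ.inv_mem hg), ?_⟩
    exact hCnormal.conj_mem _ h' ⟨g, hg⟩
  have hid : ∀ A : Matrix (Fin r) (Fin r) F, A.map (algebraMap F F) = A := fun A ↦ by
    ext i j; simp
  -- the Lie algebra of `Γ''`
  have hle_so : lieS Γ'' ≤ soTS ψ (N : Set (Fin r → F)) := by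
    intro x hx
    refine mem_soT_of_tangent (R := F) (S := mats Γ'') ?_ ?_ ?_
    · rintro _ ⟨g, hg, rfl⟩
      rw [hid]
      exact (hΓ g (hle (hle'' hg))).1
    · rintro _ ⟨g, hg, rfl⟩ w hw
      exact (hΓ g (hle (hle'' hg))).2.2 w hw
    · intro f hf
      exact mem_van_self.mp (hx f (mem_van_self.mpr hf)) 1 ⟨1, Γ''.one_mem, rfl⟩
  have hS : ∀ M ∈ mats Γ, Mᵀ * ψ * M = ψ := by
    rintro _ ⟨g, hg, rfl⟩
    exact (hΓ g hg).1
  have hst : ∀ M ∈ mats Γ, ∀ w ∈ lieS Γ'',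
      M.map (algebraMap F F) * w * (M⁻¹).map (algebraMap F F) ∈ lieS Γ'' := by
    rintro _ ⟨g, hg, rfl⟩ w hw
    have h1 : ((g : Matrix (Fin r) (Fin r) F))⁻¹ = ((g⁻¹ : GL (Fin r) F) :
        Matrix (Fin r) (Fin r) F) := by
      refine Matrix.inv_eq_right_inv ?_
      rw [← Units.val_mul, mul_inv_cancel, Units.val_one]
    rw [hid, hid, h1]
    refine lieS_conj_normal hw (fun a ha ↦ hnormal g hg a ha) (fun a ha ↦ ?_)
    have := hnormal g⁻¹ (Γ.inv_mem hg) a ha
    rwa [inv_inv] at this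
  have heq : lieS Γ'' = soTS ψ (N : Set (Fin r → F)) := by
    rcases dense_irr (k := F) (F := F) hψ hdet hN h4 hS hdense (W := lieS Γ'')
      (fun x hx ↦ by rw [hid, smap_self]; exact hle_so hx) hst with h | h
    · -- finite group
      have hfin'' : (Γ'' : Set (GL (Fin r) F)).Finite := by
        apply finite_of_lie_zero
        intro x hx
        have hx' : x ∈ lieS Γ'' := hx
        rw [h] at hx'
        exact (Submodule.mem_bot _).mp hx'
      have hfinC : Finite C := by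
        have : Finite Γ'' := hfin''.to_subtype
        refine Finite.of_injective (fun c : C ↦ (⟨Γ.subtype c.1, ⟨c.1, c.2, rfl⟩⟩ : Γ'')) ?_
        intro a b hab
        have h1 := congrArg Subtype.val hab
        exact Subtype.ext (Subtype.ext h1)
      have hfinΓ : Finite Γ := by
        have h1 : Finite (Γ ⧸ C) := Subgroup.finite_quotient_of_finiteIndex
        have h2 := Subgroup.groupEquivQuotientProdSubgroup (s := C)
        exact Finite.of_equiv _ h2.symm
      have hfin : (mats Γ).Finite := by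
        have : mats Γ = (fun a : Γ ↦ ((a : GL (Fin r) F) : Matrix (Fin r) (Fin r) F)) ''
            Set.univ := by
          ext M
          constructor
          · rintro ⟨a, ha, rfl⟩
            exact ⟨⟨a, ha⟩, Set.mem_univ _, rfl⟩
          · rintro ⟨a, -, rfl⟩
            exact ⟨a.1, a.2, rfl⟩
        rw [this]
        exact Set.finite_univ.image _
      rw [h]
      symm
      rw [eq_bot_iff]
      intro y hy
      rw [Submodule.mem_bot]
      exact soT_eq_zero_of_finite hdet hfin hdense hy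
    · apply le_antisymm hle_so
      intro x hx
      apply h
      rw [hid, smap_self]
      exact hx
  intro f hf
  have hf'' : f ∈ van F (mats Γ'') := by
    rw [mem_van_self] at hf ⊢
    rintro _ ⟨a, ha, rfl⟩
    exact hf _ ⟨a, hle'' ha, rfl⟩
  rw [mem_van_self]
  intro M hM
  refine evM_eq_zero_of_mem_SOT hψ hdet hN
    (𝓘 := (van F (mats Γ'') : Set (MvPolynomial (Fin r × Fin r) F))) ?_ ?_ hM f hf''
  · intro x hx f hf
    have hx' : x ∈ lieS Γ'' := by rw [heq]; exact hx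
    exact hx' f hf
  · intro f hf
    exact mem_van_self.mp hf 1 ⟨1, Γ''.one_mem, rfl⟩

end Pool.Agent.Helper46.GG
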