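import Mathlib
import Pool.Agent.Helper79.BB.StatM

/-!
# Hilbert irreducibility from the absence of period relations of finite covers

For a finite cover with fibre `K`, with matrix `Q` of periods (the values of the elements of a basis of
its function ring at the points of the fibre), a point `s` at which `Q` has no relation of degree
`|K|!` has the property that the Galois group of the field of definition of `s` acts on the fibre
over `s` through a group which contains the monodromy group.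
-/

set_option linter.unusedSectionVars false
set_option linter.unusedVariables false

namespace Pool.Agent.Helper46.GG

open Matrix Module Pool.Agent.Helper64.Per Pool.Agent.Helper79.BB

/-- A permutation of the columns. -/
def pcol {K R : Type*} (π : Equiv.Perm K) (M : Matrix K K R) : Matrix K K R :=
  M.submatrix id π

@[simp] lemma pcol_apply {K R : Type*} (π : Equiv.Perm K) (M : Matrix K K R) (x v : K) :
    pcol π M x v = M x (π v) := rfl

lemma isGalois_Qbar (κ : IntermediateField ℚ Qbar) : IsGalois κ Qbar := by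
  have h1 : Algebra.IsAlgebraic ℚ Qbar := algebraicClosure.isAlgebraic ℚ ℂ
  have h2 : IsAlgClosure ℚ Qbar := algebraicClosure.isAlgClosure ℚ ℂ
  have h3 : Normal ℚ Qbar := IsAlgClosure.normal ℚ Qbar
  have h4 : IsGalois ℚ Qbar := {}
  exact IsGalois.tower_top_of_isGalois ℚ κ Qbar

variable {m : ℕ} {K : Type} [Fintype K] [DecidableEq K] [Nonempty K]

/-- A linear form with rational coefficients separating the matrices obtained by permutations of the
columns. -/
lemma exists_lin (A : Matrix K K Qbar) (hA : ∀ v v', (∀ x, A x v = A x v') → v = v') :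
    ∃ c : K × K → ℚ, ∀ π π' : Equiv.Perm K,
      ∑ p : K × K, (c p : Qbar) * A p.1 (π p.2) = ∑ p : K × K, (c p : Qbar) * A p.1 (π' p.2) →
        π = π' := by
  classical
  let I := {q : Equiv.Perm K × Equiv.Perm K // q.1 ≠ q.2}
  let L : I → (K × K → ℚ) →ₗ[ℚ] Qbar := fun q ↦
    { toFun := fun c ↦ ∑ p : K × K, (c p : Qbar) * (A p.1 (q.1.1 p.2) - A p.1 (q.1.2 p.2))
      map_add' := by
        intro c d
        rw [← Finset.sum_add_distrib]
        refine Finset.sum_congr rfl fun p _ ↦ ?_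
        rw [Pi.add_apply, Rat.cast_add, add_mul]
      map_smul' := by
        intro a c
        rw [RingHom.id_apply, Finset.smul_sum]
        refine Finset.sum_congr rfl fun p _ ↦ ?_
        rw [Pi.smul_apply, smul_eq_mul, Rat.cast_mul, mul_assoc, Rat.smul_def] }
  have hne : ∀ q : I, LinearMap.ker (L q) ≠ ⊤ := by
    intro q htop
    apply q.2
    ext v
    apply hA
    intro x
    have h1 : (Pi.single (x, v) (1 : ℚ) : K × K → ℚ) ∈ LinearMap.ker (L q) := by
      rw [htop]; exact Submodule.mem_top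
    rw [LinearMap.mem_ker] at h1
    change ∑ p : K × K, ((Pi.single (x, v) (1 : ℚ) : K × K → ℚ) p : Qbar) *
      (A p.1 (q.1.1 p.2) - A p.1 (q.1.2 p.2)) = 0 at h1
    rw [Finset.sum_eq_single (x, v)] at h1
    · rw [Pi.single_eq_same, Rat.cast_one, one_mul] at h1
      exact sub_eq_zero.mp h1
    · intro p _ hp
      rw [Pi.single_eq_of_ne hp, Rat.cast_zero, zero_mul]
    · intro h; exact absurd (Finset.mem_univ _) h
  obtain ⟨c, hc⟩ : ∃ c : K × K → ℚ, ∀ q : I, c ∉ LinearMap.ker (L q) := by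
    by_contra! hcon
    have hcov : ⋃ q : I, (LinearMap.ker (L q) : Set (K × K → ℚ)) = Set.univ := by
      rw [Set.eq_univ_iff_forall]
      intro c
      obtain ⟨q, hq⟩ := hcon c
      exact Set.mem_iUnion.mpr ⟨q, hq⟩
    obtain ⟨q, hq⟩ := Subspace.exists_eq_top_of_iUnion_eq_univ hcov
    exact hne q hq
  refine ⟨c, fun π π' h ↦ ?_⟩
  by_contra hne'
  apply hc ⟨(π, π'), hne'⟩
  rw [LinearMap.mem_ker]
  change ∑ p : K × K, (c p : Qbar) * (A p.1 (π p.2) - A p.1 (π' p.2)) = 0
  simp only [mul_sub, Finset.sum_sub_distrib]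
  exact sub_eq_zero.mpr h

/-- A permutation in the monodromy group is realised by an element of the Galois group of the field
of definition of a point without relations. -/
theorem hilbert_core {κs : IntermediateField ℚ Qbar} {U : Set (Fin m → ℂ)} {w : (Fin m → ℂ) → ℂ}
    {Q : (Fin m → ℂ) → Matrix K K ℂ} {s : Fin m → ℂ} (hs : s ∈ U) (hdet : IsUnit (Q s).det)
    {A : Matrix K K Qbar} (hA : A.map (algebraMap Qbar ℂ) = Q s)
    (ρ : (Qbar ≃ₐ[κs] Qbar) → Equiv.Perm K)
    (hρ : ∀ σ x v, σ (A x v) = A x (ρ σ v))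
    (hno : ¬ ∃ r : MvPolynomial (K × K) κs, r.totalDegree ≤ (Fintype.card K).factorial ∧
      (∀ M ∈ ZClosure (Q s), evK κs r M = 0) ∧ ¬ ∀ M ∈ BFibreM U w Q s, evK κs r M = 0)
    {π : Equiv.Perm K}
    (hmon : ∀ q : MvPolynomial ((Fin m ⊕ Unit) ⊕ K × K) Qbar,
      (∀ t ∈ U, evP q t (w t) (Q t) = 0) → ∀ t ∈ U, evP q t (w t) (pcol π (Q t)) = 0) :
    ∃ σ, ρ σ = π := by
  classical
  have hgal : IsGalois κs Qbar := isGalois_Qbar κs
  have hAQ : ∀ x v, ((A x v : Qbar) : ℂ) = Q s x v := fun x v ↦ congrFun (congrFun hA x) v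
  -- the columns are distinct
  have hcol : ∀ v v', (∀ x, A x v = A x v') → v = v' := by
    intro v v' h
    by_contra hne
    have h1 : (Q s).det = 0 := by
      refine Matrix.det_zero_of_column_eq hne fun x ↦ ?_
      rw [← hAQ, ← hAQ, h x]
    rw [h1] at hdet
    exact not_isUnit_zero hdet
  have hρmul : ∀ σ τ, ρ (σ * τ) = ρ σ * ρ τ := by
    intro σ τ
    ext v
    apply hcol
    intro x
    rw [← hρ, Equiv.Perm.mul_apply, ← hρ, ← hρ]
    rfl
  have hρone : ρ 1 = 1 := by
    ext v
    apply hcol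
    intro x
    rw [← hρ]
    rfl
  obtain ⟨c, hc⟩ := exists_lin A hcol
  let val : Equiv.Perm K → Qbar := fun π ↦ ∑ p : K × K, (c p : Qbar) * A p.1 (π p.2)
  have hval : ∀ π π', val π = val π' → π = π' := hc
  let Z : Finset (Equiv.Perm K) := Finset.univ.filter fun π ↦ ∃ σ, ρ σ = π
  have hZ : ∀ π, π ∈ Z ↔ ∃ σ, ρ σ = π := fun π ↦ by simp [Z]
  let lin : MvPolynomial (K × K) Qbar := ∑ p : K × K, MvPolynomial.C (c p : Qbar) * MvPolynomial.X p
  let q : MvPolynomial (K × K) Qbar := ∏ π ∈ Z, (lin - MvPolynomial.C (val π))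
  -- the Galois action on the values
  have hσval : ∀ σ : Qbar ≃ₐ[κs] Qbar, ∀ π, σ (val π) = val (ρ σ * π) := by
    intro σ π
    change σ (∑ p : K × K, (c p : Qbar) * A p.1 (π p.2)) = _
    rw [map_sum]
    refine Finset.sum_congr rfl fun p _ ↦ ?_
    rw [map_mul, map_ratCast, hρ]
    rfl
  have hσlin : ∀ σ : Qbar ≃ₐ[κs] Qbar,
      MvPolynomial.map (σ : Qbar →+* Qbar) lin = lin := by
    intro σ
    change MvPolynomial.map (σ : Qbar →+* Qbar)
      (∑ p : K × K, MvPolynomial.C (c p : Qbar) * MvPolynomial.X p) = _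
    rw [map_sum]
    refine Finset.sum_congr rfl fun p _ ↦ ?_
    rw [map_mul, MvPolynomial.map_C, MvPolynomial.map_X]
    congr 2
    exact map_ratCast σ (c p)
  have hσq : ∀ σ : Qbar ≃ₐ[κs] Qbar, MvPolynomial.map (σ : Qbar →+* Qbar) q = q := by
    intro σ
    change MvPolynomial.map (σ : Qbar →+* Qbar) (∏ π ∈ Z, (lin - MvPolynomial.C (val π))) = _
    rw [map_prod]
    refine Finset.prod_bij (fun π _ ↦ ρ σ * π) ?_ ?_ ?_ ?_
    · intro π hπ
      obtain ⟨τ, rfl⟩ := (hZ π).mp hπ
      exact (hZ _).mpr ⟨σ * τ, hρmul σ τ⟩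
    · intro π _ π' _ h
      exact mul_left_cancel h
    · intro π hπ
      obtain ⟨τ, rfl⟩ := (hZ π).mp hπ
      refine ⟨ρ (σ⁻¹ * τ), (hZ _).mpr ⟨_, rfl⟩, ?_⟩
      rw [← hρmul, mul_inv_cancel_left]
    · intro π _
      rw [map_sub, hσlin, MvPolynomial.map_C]
      congr 2
      exact hσval σ π
  -- descent
  have hcoef : ∀ n, q.coeff n ∈ Set.range (algebraMap κs Qbar) := by
    intro n
    rw [InfiniteGalois.mem_range_algebraMap_iff_fixed]
    intro σ
    have h1 := congrArg (MvPolynomial.coeff n) (hσq σ)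
    rw [MvPolynomial.coeff_map] at h1
    exact h1
  obtain ⟨r, hr⟩ : ∃ r : MvPolynomial (K × K) κs, MvPolynomial.map (algebraMap κs Qbar) r = q := by
    have h1 : q ∈ Set.range (MvPolynomial.map (algebraMap κs Qbar)) := by
      rw [← RingHom.coe_range]
      refine MvPolynomial.mem_range_map_iff_coeffs_subset.mpr ?_
      intro a ha
      obtain ⟨n, -, rfl⟩ := MvPolynomial.mem_coeffs_iff.mp ha
      exact hcoef n
    exact h1
  have hev : ∀ M : Matrix K K ℂ, evK κs r M = MvPolynomial.aeval (fun p ↦ M p.1 p.2) q := by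
    intro M
    unfold evK
    rw [← hr, MvPolynomial.aeval_map_algebraMap]
  have hqval : ∀ M : Matrix K K ℂ, MvPolynomial.aeval (fun p : K × K ↦ M p.1 p.2) q =
      ∏ π ∈ Z, (∑ p : K × K, ((c p : ℚ) : ℂ) * M p.1 p.2 - ((val π : Qbar) : ℂ)) := by
    intro M
    change MvPolynomial.aeval (fun p : K × K ↦ M p.1 p.2)
      (∏ π ∈ Z, (lin - MvPolynomial.C (val π))) = _
    rw [map_prod]
    refine Finset.prod_congr rfl fun π _ ↦ ?_
    rw [map_sub, MvPolynomial.aeval_C]
    congr 1
    change MvPolynomial.aeval (fun p : K × K ↦ M p.1 p.2)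
      (∑ p : K × K, MvPolynomial.C (c p : Qbar) * MvPolynomial.X p) = _
    rw [map_sum]
    refine Finset.sum_congr rfl fun p _ ↦ ?_
    rw [map_mul, MvPolynomial.aeval_C, MvPolynomial.aeval_X, map_ratCast]
  have hvalC : ∀ π : Equiv.Perm K, ((val π : Qbar) : ℂ) =
      ∑ p : K × K, ((c p : ℚ) : ℂ) * Q s p.1 (π p.2) := by
    intro π
    change algebraMap Qbar ℂ (∑ p : K × K, (c p : Qbar) * A p.1 (π p.2)) = _
    rw [map_sum]
    refine Finset.sum_congr rfl fun p _ ↦ ?_
    rw [map_mul, map_ratCast]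
    congr 1
    exact hAQ _ _
  -- the relation
  by_contra hcon
  apply hno
  refine ⟨r, ?_, ?_, ?_⟩
  · have h1 : r.totalDegree = q.totalDegree := by
      rw [← hr]
      unfold MvPolynomial.totalDegree
      rw [MvPolynomial.support_map_of_injective r (algebraMap κs Qbar).injective]
    rw [h1]
    have h2 : ∀ π ∈ Z, (lin - MvPolynomial.C (val π)).totalDegree ≤ 1 := by
      intro π _
      refine (MvPolynomial.totalDegree_sub_C_le _ _).trans ?_
      refine MvPolynomial.totalDegree_finsetSum_le fun p _ ↦ ?_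
      refine (MvPolynomial.totalDegree_mul _ _).trans ?_
      rw [MvPolynomial.totalDegree_C, MvPolynomial.totalDegree_X, zero_add]
    refine (MvPolynomial.totalDegree_finsetProd _ _).trans ?_
    refine (Finset.sum_le_sum h2).trans ?_
    rw [Finset.sum_const, smul_eq_mul, mul_one, ← Fintype.card_perm]
    exact Finset.card_le_univ _
  · intro M hM
    rw [hev]
    apply hM.2
    rw [hqval]
    refine Finset.prod_eq_zero (i := 1) ((hZ 1).mpr ⟨1, hρone⟩) ?_
    rw [hvalC]
    simp
  · intro hall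
    have h1 : pcol π (Q s) ∈ BFibreM U w Q s := by
      refine ⟨?_, fun q' hq' ↦ hmon q' hq' s hs⟩
      have h2 : (pcol π (Q s)).det = (Equiv.Perm.sign π : ℤ) * (Q s).det :=
        Matrix.det_permute' π (Q s)
      rw [h2]
      refine IsUnit.mul ?_ hdet
      rcases Int.units_eq_one_or (Equiv.Perm.sign π) with h | h
      · rw [h]; simp
      · rw [h]; simp
    have h2 := hall _ h1
    rw [hev, hqval, Finset.prod_eq_zero_iff] at h2
    obtain ⟨π', hπ', h3⟩ := h2
    have h4 : ((val π : Qbar) : ℂ) = ((val π' : Qbar) : ℂ) := by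
      rw [hvalC π]
      exact sub_eq_zero.mp h3
    have h5 : π = π' := hval _ _ (Subtype.ext h4)
    apply hcon
    rw [h5]
    exact (hZ π').mp hπ'

/-- A permutation in the monodromy group is realised by an element of the Galois group of the field
of definition of a point without relations. -/
theorem hilbert {κ : IntermediateField ℚ Qbar} {U : Set (Fin m → ℂ)} {w : (Fin m → ℂ) → ℂ}
    {Q : (Fin m → ℂ) → Matrix K K ℂ} {s : Fin m → ℂ} (hs : s ∈ U) (hdet : IsUnit (Q s).det)
    {A : Matrix K K Qbar} (hA : A.map (algebraMap Qbar ℂ) = Q s)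
    (ρ : (Qbar ≃ₐ[kapM κ s (w s)] Qbar) → Equiv.Perm K)
    (hρ : ∀ σ x v, σ (A x v) = A x (ρ σ v))
    (hno : ¬ HasRelationM U w Q s κ (Fintype.card K).factorial) {π : Equiv.Perm K}
    (hmon : ∀ q : MvPolynomial ((Fin m ⊕ Unit) ⊕ K × K) Qbar,
      (∀ t ∈ U, evP q t (w t) (Q t) = 0) → ∀ t ∈ U, evP q t (w t) (pcol π (Q t)) = 0) :
    ∃ σ, ρ σ = π :=
  hilbert_core hs hdet hA ρ hρ hno hmon

end Pool.Agent.Helper46.GG
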