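import Mathlib
import Pool.Agent.Helper46.GG.Main

/-!
# Isometries of determinant `± 1`, and the equality with the Mumford-Tate group
-/

set_option linter.unusedSectionVars false
set_option linter.unusedVariables false

namespace Pool.Agent.Helper46.GG

open Matrix Module Pool.Agent.Helper88.MT

variable {r : ℕ}

/-- The elements of determinant one of a group of invertible matrices. -/
def detOne {R : Type*} [CommRing R] (G : Subgroup (GL (Fin r) R)) : Subgroup (GL (Fin r) R) where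
  carrier := {g | g ∈ G ∧ (g : Matrix (Fin r) (Fin r) R).det = 1}
  mul_mem' := by
    rintro a b ⟨ha, ha'⟩ ⟨hb, hb'⟩
    exact ⟨G.mul_mem ha hb, by rw [Units.val_mul, det_mul, ha', hb', one_mul]⟩
  one_mem' := ⟨G.one_mem, by rw [Units.val_one, det_one]⟩
  inv_mem' := by
    rintro a ⟨ha, ha'⟩
    refine ⟨G.inv_mem ha, ?_⟩
    have h := congrArg Matrix.det (Units.inv_mul a)
    rw [det_mul, ha', mul_one, det_one] at h
    exact h

lemma mem_detOne {R : Type*} [CommRing R] {G : Subgroup (GL (Fin r) R)} {g : GL (Fin r) R} :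
    g ∈ detOne G ↔ g ∈ G ∧ (g : Matrix (Fin r) (Fin r) R).det = 1 := Iff.rfl

/-- A group of `ℓ`-adic isometries which contains, modulo a high power of `ℓ`, a Zariski dense
group of integral isometries: its elements of determinant one are Zariski dense in the special
orthogonal group. -/
theorem main_isom {ψ : Matrix (Fin r) (Fin r) ℚ} (hψ : ψᵀ = ψ) (hdet : ψ.det ≠ 0)
    {N : Submodule ℚ (Fin r → ℚ)} (hN : ∀ v ∈ N, (∀ w ∈ N, bil ψ v w = 0) → v = 0)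
    (h4 : finrank ℚ (orthS ψ N) ≠ 4) {Γ : Subgroup (GL (Fin r) ℤ)}
    (hΓ : ∀ γ ∈ Γ, (toQ γ)ᵀ * ψ * toQ γ = ψ ∧ ∀ w ∈ N, toQ γ *ᵥ w = w)
    (hdense : ∀ f ∈ van ℚ (toQ '' (Γ : Set (GL (Fin r) ℤ))),
      f ∈ van ℚ (SOT ψ (N : Set (Fin r → ℚ))))
    (ℓ : ℕ) [Fact ℓ.Prime] :
    ∃ k : ℕ, ∀ k', k ≤ k' → ∀ G : Subgroup (GL (Fin r) ℤ_[ℓ]),
      (∀ g ∈ G, (co (g : Matrix (Fin r) (Fin r) ℤ_[ℓ]))ᵀ * ψ.map (algebraMap ℚ ℚ_[ℓ]) *
        co (g : Matrix (Fin r) (Fin r) ℤ_[ℓ]) = ψ.map (algebraMap ℚ ℚ_[ℓ]) ∧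
        ∀ w ∈ smap ℚ_[ℓ] N, co (g : Matrix (Fin r) (Fin r) ℤ_[ℓ]) *ᵥ w = w) →
      (∀ γ ∈ Γ, ∃ g ∈ G, (g : Matrix (Fin r) (Fin r) ℤ_[ℓ]).map (PadicInt.toZModPow k') =
        (γ : Matrix (Fin r) (Fin r) ℤ).map (Int.cast : ℤ → ZMod (ℓ ^ k'))) →
      (∀ x, x ∈ lieGL (gal (detOne G) : Set (GL (Fin r) ℚ_[ℓ])) ↔
        x ∈ soT (ψ.map (algebraMap ℚ ℚ_[ℓ])) (smap ℚ_[ℓ] N : Set (Fin r → ℚ_[ℓ]))) ∧
      ∀ f ∈ van ℚ_[ℓ] (mats (gal (detOne G))),
        ∀ M ∈ SOT (ψ.map (algebraMap ℚ ℚ_[ℓ])) (smap ℚ_[ℓ] N : Set (Fin r → ℚ_[ℓ])),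
          evM M f = 0 := by
  -- the determinants of the elements of `Γ`
  have hdetΓ : ∀ γ : GL (Fin r) ℤ, (γ : Matrix (Fin r) (Fin r) ℤ).det = 1 ∨
      (γ : Matrix (Fin r) (Fin r) ℤ).det = -1 := by
    intro γ
    exact Int.isUnit_iff.mp ((Matrix.isUnit_iff_isUnit_det _).mp γ.isUnit)
  have hdetQ : ∀ γ : GL (Fin r) ℤ,
      (toQ γ).det = (((γ : Matrix (Fin r) (Fin r) ℤ).det : ℤ) : ℚ) := by
    intro γ
    exact (RingHom.map_det (Int.castRingHom ℚ) (γ : Matrix (Fin r) (Fin r) ℤ)).symm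
  -- density
  have hdense' : ∀ f ∈ van ℚ (toQ '' (detOne Γ : Set (GL (Fin r) ℤ))),
      f ∈ van ℚ (SOT ψ (N : Set (Fin r → ℚ))) := by
    intro f hf
    rw [mem_van_self] at hf ⊢
    intro M hM
    have h1 : f * (eqDet (Fin r) ℚ + 2) ∈ van ℚ (toQ '' (Γ : Set (GL (Fin r) ℤ))) := by
      rw [mem_van_self]
      rintro _ ⟨γ, hγ, rfl⟩
      rw [map_mul, map_add, evM_eqDet, hdetQ, map_ofNat]
      rcases hdetΓ γ with h | h
      · rw [hf _ ⟨γ, ⟨hγ, h⟩, rfl⟩, zero_mul]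
      · rw [h]
        push_cast
        ring
    have h2 := mem_van_self.mp (hdense _ h1) M hM
    rw [map_mul, map_add, evM_eqDet, hM.2.1, map_ofNat, sub_self, zero_add] at h2
    exact (mul_eq_zero.mp h2).resolve_right two_ne_zero
  obtain ⟨k, hk⟩ := main_det_one hψ hdet hN h4 (Γ := detOne Γ) (fun γ hγ ↦ hΓ γ hγ.1) hdense' ℓ
  · refine ⟨max k 2, ?_⟩
    intro k' hk' G hG hcong
    refine hk k' (le_trans (le_max_left _ _) hk') (detOne G) ?_ ?_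
    · rintro g ⟨hg, hg1⟩
      refine ⟨(hG g hg).1, ?_, fun w hw ↦ (hG g hg).2 w hw⟩
      have h1 : (co (g : Matrix (Fin r) (Fin r) ℤ_[ℓ])).det =
          algebraMap ℤ_[ℓ] ℚ_[ℓ] (g : Matrix (Fin r) (Fin r) ℤ_[ℓ]).det :=
        (RingHom.map_det _ _).symm
      rw [h1, hg1, map_one]
    · rintro γ ⟨hγ, hγ1⟩
      obtain ⟨g, hg, hgγ⟩ := hcong γ hγ
      refine ⟨g, ⟨hg, ?_⟩, hgγ⟩
      -- the determinant
      have h1 : (co (g : Matrix (Fin r) (Fin r) ℤ_[ℓ])).det =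
          algebraMap ℤ_[ℓ] ℚ_[ℓ] (g : Matrix (Fin r) (Fin r) ℤ_[ℓ]).det :=
        (RingHom.map_det _ _).symm
      have hdet' : (ψ.map (algebraMap ℚ ℚ_[ℓ])).det ≠ 0 := by
        have : (ψ.map (algebraMap ℚ ℚ_[ℓ])).det = algebraMap ℚ ℚ_[ℓ] ψ.det :=
          (RingHom.map_det _ _).symm
        rw [this]
        simpa using hdet
      have h2 : (g : Matrix (Fin r) (Fin r) ℤ_[ℓ]).det * (g : Matrix (Fin r) (Fin r) ℤ_[ℓ]).det =
          1 := by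
        have h3 := congrArg Matrix.det (hG g hg).1
        rw [det_mul, det_mul, det_transpose, h1] at h3
        have h4 : algebraMap ℤ_[ℓ] ℚ_[ℓ] (g : Matrix (Fin r) (Fin r) ℤ_[ℓ]).det *
            algebraMap ℤ_[ℓ] ℚ_[ℓ] (g : Matrix (Fin r) (Fin r) ℤ_[ℓ]).det = 1 := by
          have h5 : (ψ.map (algebraMap ℚ ℚ_[ℓ])).det *
              (algebraMap ℤ_[ℓ] ℚ_[ℓ] (g : Matrix (Fin r) (Fin r) ℤ_[ℓ]).det *
              algebraMap ℤ_[ℓ] ℚ_[ℓ] (g : Matrix (Fin r) (Fin r) ℤ_[ℓ]).det) =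
              (ψ.map (algebraMap ℚ ℚ_[ℓ])).det * 1 := by linear_combination h3
          exact mul_left_cancel₀ hdet' h5
        apply IsFractionRing.injective ℤ_[ℓ] ℚ_[ℓ]
        rw [map_mul, h4, map_one]
      rcases mul_self_eq_one_iff.mp h2 with h3 | h3
      · exact h3
      · exfalso
        have h5 := RingHom.map_det (PadicInt.toZModPow k' : ℤ_[ℓ] →+* ZMod (ℓ ^ k'))
          (g : Matrix (Fin r) (Fin r) ℤ_[ℓ])
        have h6 := RingHom.map_det (Int.castRingHom (ZMod (ℓ ^ k')))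
          (γ : Matrix (Fin r) (Fin r) ℤ)
        have h7 : ((PadicInt.toZModPow k' : ℤ_[ℓ] →+* ZMod (ℓ ^ k')).mapMatrix
            (g : Matrix (Fin r) (Fin r) ℤ_[ℓ])) =
            (Int.castRingHom (ZMod (ℓ ^ k'))).mapMatrix (γ : Matrix (Fin r) (Fin r) ℤ) := hgγ
        rw [h7, ← h6, h3, hγ1, map_neg, map_one, map_one] at h5
        have h8 : ((2 : ℕ) : ZMod (ℓ ^ k')) = 0 := by
          push_cast
          linear_combination (-1 : ZMod (ℓ ^ k')) * h5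
        rw [ZMod.natCast_eq_zero_iff] at h8
        have h9 := Nat.le_of_dvd (by norm_num) h8
        have h10 : 2 ≤ k' := le_trans (le_max_right _ _) hk'
        have h11 : ℓ ^ 2 ≤ ℓ ^ k' := Nat.pow_le_pow_right (Fact.out : ℓ.Prime).pos h10
        have h12 := (Fact.out : ℓ.Prime).two_le
        nlinarith

end Pool.Agent.Helper46.GG
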