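import Mathlib
import Pool.Agent.Helper46.GG.Wrap
import Pool.Agent.Helper46.GG.Hilbert

/-!
# The Galois image at a point without relations of the level cover
-/

set_option linter.unusedSectionVars false
set_option linter.unusedVariables false

namespace Pool.Agent.Helper46.GG

open Matrix Module Pool.Agent.Helper88.MT Pool.Agent.Helper64.Per Pool.Agent.Helper79.BB

variable {r : ℕ}

/-- The permutation of the vectors given by an invertible matrix. -/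
def vperm {R : Type} [CommRing R] (g : GL (Fin r) R) : Equiv.Perm (Fin r → R) where
  toFun v := (g : Matrix (Fin r) (Fin r) R) *ᵥ v
  invFun v := ((g⁻¹ : GL (Fin r) R) : Matrix (Fin r) (Fin r) R) *ᵥ v
  left_inv v := by
    beta_reduce
    rw [mulVec_mulVec, ← Units.val_mul, inv_mul_cancel, Units.val_one, one_mulVec]
  right_inv v := by
    beta_reduce
    rw [mulVec_mulVec, ← Units.val_mul, mul_inv_cancel, Units.val_one, one_mulVec]

/-- The action of an integral matrix on the vectors modulo `ℓ ^ k`. -/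
def actZ (ℓ k : ℕ) (γ : GL (Fin r) ℤ) : Equiv.Perm (Fin r → ZMod (ℓ ^ k)) :=
  vperm (Matrix.GeneralLinearGroup.map (Int.castRingHom (ZMod (ℓ ^ k))) γ)

/-- The action of an `ℓ`-adic matrix on the vectors modulo `ℓ ^ k`. -/
noncomputable def actL {ℓ : ℕ} [Fact ℓ.Prime] (k : ℕ) (g : GL (Fin r) ℤ_[ℓ]) :
    Equiv.Perm (Fin r → ZMod (ℓ ^ k)) :=
  vperm (Matrix.GeneralLinearGroup.map (PadicInt.toZModPow k) g)

lemma map_eq_of_act {ℓ : ℕ} [Fact ℓ.Prime] {k : ℕ} {g : GL (Fin r) ℤ_[ℓ]} {γ : GL (Fin r) ℤ}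
    (h : actL k g = actZ ℓ k γ) :
    (g : Matrix (Fin r) (Fin r) ℤ_[ℓ]).map (PadicInt.toZModPow k) =
        (γ : Matrix (Fin r) (Fin r) ℤ).map (Int.cast : ℤ → ZMod (ℓ ^ k)) := by
  apply Matrix.mulVec_injective
  funext v
  exact congrArg (fun π : Equiv.Perm (Fin r → ZMod (ℓ ^ k)) ↦ π v) h

/-- **The Galois side.** Let `ψ` be a form on `ℤ ^ r`, `N` a space of rational vectors on which `ψ` is
nondegenerate, whose orthogonal has dimension different from `4`, and `Γ` a group of integral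
isometries fixing `N` whose Zariski closure contains the special orthogonal group of the orthogonal of
`N`. For every prime `ℓ` there is a `k` such that the following holds for the level `ℓ ^ k'`, `k' ≥ k`:
let `Q` be the matrix of periods of the cover of level `ℓ ^ k'` (with columns indexed by the vectors modulo
`ℓ ^ k'`), `Γ` the monodromy group, and `s` a point at which `Q` has no relation of degree
`(ℓ ^ (k' r))!`, with a representation `ρ` of the Galois group of the field of definition of `s` by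
`ℓ`-adic isometries fixing `N`, compatible with `Q s`. Then the Zariski closure over `ℚ_ℓ` of the
elements of determinant one of the image of `ρ` is the special orthogonal group. -/
theorem gal_side {ψ : Matrix (Fin r) (Fin r) ℚ} (hψ : ψᵀ = ψ) (hdet : ψ.det ≠ 0)
    {N : Submodule ℚ (Fin r → ℚ)} (hN : ∀ v ∈ N, (∀ w ∈ N, bil ψ v w = 0) → v = 0)
    (h4 : finrank ℚ (orthS ψ N) ≠ 4) {Γ : Subgroup (GL (Fin r) ℤ)}
    (hΓ : ∀ γ ∈ Γ, (toQ γ)ᵀ * ψ * toQ γ = ψ ∧ ∀ w ∈ N, toQ γ *ᵥ w = w)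
    (hdense : ∀ f ∈ van ℚ (toQ '' (Γ : Set (GL (Fin r) ℤ))),
      f ∈ van ℚ (SOT ψ (N : Set (Fin r → ℚ))))
    (ℓ : ℕ) [Fact ℓ.Prime] :
    ∃ k : ℕ, ∀ k', k ≤ k' → ∀ [Fintype (Fin r → ZMod (ℓ ^ k'))]
      [DecidableEq (Fin r → ZMod (ℓ ^ k'))] {m : ℕ} {κ : IntermediateField ℚ Qbar}
      {U : Set (Fin m → ℂ)} {w : (Fin m → ℂ) → ℂ}
      {Q : (Fin m → ℂ) → Matrix (Fin r → ZMod (ℓ ^ k')) (Fin r → ZMod (ℓ ^ k')) ℂ}
      {s : Fin m → ℂ}, s ∈ U → IsUnit (Q s).det →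
      (∀ γ ∈ Γ, ∀ q : MvPolynomial ((Fin m ⊕ Unit) ⊕
          (Fin r → ZMod (ℓ ^ k')) × (Fin r → ZMod (ℓ ^ k'))) Qbar,
        (∀ t ∈ U, evP q t (w t) (Q t) = 0) →
          ∀ t ∈ U, evP q t (w t) (pcol (actZ ℓ k' γ) (Q t)) = 0) →
      ∀ ρ : (Qbar ≃ₐ[kapM κ s (w s)] Qbar) →* GL (Fin r) ℤ_[ℓ],
      (∀ σ, (co (ρ σ : Matrix (Fin r) (Fin r) ℤ_[ℓ]))ᵀ * ψ.map (algebraMap ℚ ℚ_[ℓ]) *
        co (ρ σ : Matrix (Fin r) (Fin r) ℤ_[ℓ]) = ψ.map (algebraMap ℚ ℚ_[ℓ]) ∧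
        ∀ w ∈ smap ℚ_[ℓ] N, co (ρ σ : Matrix (Fin r) (Fin r) ℤ_[ℓ]) *ᵥ w = w) →
      ∀ A : Matrix (Fin r → ZMod (ℓ ^ k')) (Fin r → ZMod (ℓ ^ k')) Qbar,
      A.map (algebraMap Qbar ℂ) = Q s → (∀ σ x v, σ (A x v) = A x (actL k' (ρ σ) v)) →
      ¬ HasRelationM U w Q s κ (Fintype.card (Fin r → ZMod (ℓ ^ k'))).factorial →
      (∀ x, x ∈ lieGL (gal (detOne ρ.range) : Set (GL (Fin r) ℚ_[ℓ])) ↔
        x ∈ soT (ψ.map (algebraMap ℚ ℚ_[ℓ])) (smap ℚ_[ℓ] N : Set (Fin r → ℚ_[ℓ]))) ∧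
      ∀ f ∈ van ℚ_[ℓ] (mats (gal (detOne ρ.range))),
        ∀ M ∈ SOT (ψ.map (algebraMap ℚ ℚ_[ℓ])) (smap ℚ_[ℓ] N : Set (Fin r → ℚ_[ℓ])),
          evM M f = 0 := by
  obtain ⟨k, hk⟩ := main_isom hψ hdet hN h4 hΓ hdense ℓ
  refine ⟨k, ?_⟩
  intro k' hk' _ _ m κ U w Q s hs hdetQ hmon ρ hρ A hA hAρ hno
  refine hk k' hk' ρ.range ?_ ?_
  · rintro _ ⟨σ, rfl⟩
    exact hρ σ
  · intro γ hγ
    have : Nonempty (Fin r → ZMod (ℓ ^ k')) := ⟨0⟩
    obtain ⟨σ, hσ⟩ := hilbert (K := Fin r → ZMod (ℓ ^ k')) hs hdetQ hA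
      (fun σ ↦ actL k' (ρ σ)) hAρ hno (hmon γ hγ)
    exact ⟨ρ σ, ⟨σ, rfl⟩, map_eq_of_act hσ⟩

end Pool.Agent.Helper46.GG
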