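import Mathlib
import Pool.Agent.Helper46.GG.Wrap
import Pool.Agent.Helper46.GG.FinIndex
import Pool.Agent.Helper79.HH.Stat

/-!
# `ℓ`-adic groups near an integral group with big tangent space
-/

set_option linter.unusedSectionVars false
set_option linter.unusedVariables false

namespace Pool.Agent.Helper46.GG

open Matrix Module Pool.Agent.Helper88.MT

variable {r : ℕ}

lemma onePlus_eq (x : Matrix (Fin r) (Fin r) ℂ) :
    Helper79.HH.onePlus x = dualM (1 : Matrix (Fin r) (Fin r) ℂ) x := by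
  ext a b : 2
  · simp [Helper79.HH.onePlus, dualM]
  · simp only [Helper79.HH.onePlus, dualM, one_mul, Matrix.of_apply]

/-- A tangent direction of a monoid gives an invariant derivation of its vanishing ideal. -/
lemma der_mem_van_of_tangent {S : Set (Matrix (Fin r) (Fin r) ℂ)}
    (hmul : ∀ g ∈ S, ∀ h ∈ S, g * h ∈ S) {x : Matrix (Fin r) (Fin r) ℂ}
    (hx : x ∈ Helper79.HH.tangent S) {f : MvPolynomial (Fin r × Fin r) ℂ} (hf : f ∈ van ℂ S) :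
    der x f ∈ van ℂ S := by
  rw [mem_van_self]
  intro g hg
  obtain ⟨f', hf'⟩ := exists_translate g f
  have hid : ∀ A : Matrix (Fin r) (Fin r) ℂ, A.map (algebraMap ℂ ℂ) = A := fun A ↦ by
    ext i j; simp
  have h1 : ∀ h ∈ S, MvPolynomial.aeval (fun e : Fin r × Fin r => h e.1 e.2) f' = 0 := by
    intro h hh
    have h2 := hf' h
    rw [hid, mem_van_self.mp hf _ (hmul g hg h hh)] at h2
    exact h2
  have h2 : evM (dualM (1 : Matrix (Fin r) (Fin r) ℂ) x) f' = 0 := by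
    rw [← onePlus_eq]
    exact hx f' h1
  rw [hf', map_mul_dualM, mul_one, evM_dualM] at h2
  have h3 := congrArg TrivSqZeroExt.snd h2
  simpa using h3

/-- If the tangent space of a monoid of rational matrices over `ℂ` contains the orthogonal Lie
algebra then the rational polynomials which vanish on the monoid vanish on the orthogonal group. -/
lemma dense_of_tangent {ψ : Matrix (Fin r) (Fin r) ℚ} (hψ : ψᵀ = ψ) (hdet : ψ.det ≠ 0)
    {N : Submodule ℚ (Fin r → ℚ)} (hN : ∀ v ∈ N, (∀ w ∈ N, bil ψ v w = 0) → v = 0)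
    {S : Set (Matrix (Fin r) (Fin r) ℚ)} (h1 : 1 ∈ S) (hmul : ∀ g ∈ S, ∀ h ∈ S, g * h ∈ S)
    (hbig : ∀ x ∈ soT (ψ.map (algebraMap ℚ ℂ)) (smap ℂ N : Set (Fin r → ℂ)),
      x ∈ Helper79.HH.tangent ((fun γ : Matrix (Fin r) (Fin r) ℚ => γ.map (algebraMap ℚ ℂ)) '' S)) :
    ∀ f ∈ van ℚ S, f ∈ van ℚ (SOT ψ (N : Set (Fin r → ℚ))) := by
  intro f hf
  rw [mem_van_self] at hf ⊢
  intro M hM
  set SC := (fun γ : Matrix (Fin r) (Fin r) ℚ => γ.map (algebraMap ℚ ℂ)) '' S with hSC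
  have hmulC : ∀ g ∈ SC, ∀ h ∈ SC, g * h ∈ SC := by
    rintro _ ⟨g, hg, rfl⟩ _ ⟨h, hh, rfl⟩
    refine ⟨g * h, hmul g hg h hh, ?_⟩
    simp only [Matrix.map_mul]
  have hone : (1 : Matrix (Fin r) (Fin r) ℂ) ∈ SC :=
    ⟨1, h1, Matrix.map_one _ (map_zero _) (map_one _)⟩
  have hψ' : (ψ.map (algebraMap ℚ ℂ))ᵀ = ψ.map (algebraMap ℚ ℂ) := by
    rw [← Matrix.transpose_map, hψ]
  have hdet' : (ψ.map (algebraMap ℚ ℂ)).det ≠ 0 := by
    have : (ψ.map (algebraMap ℚ ℂ)).det = algebraMap ℚ ℂ ψ.det :=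
      (RingHom.map_det _ _).symm
    rw [this]
    simpa using hdet
  have hM' : M.map (algebraMap ℚ ℂ) ∈ SOT (ψ.map (algebraMap ℚ ℂ))
      (smap ℂ N : Set (Fin r → ℂ)) := by
    obtain ⟨a, b, c⟩ := hM
    refine ⟨?_, ?_, ?_⟩
    · rw [← Matrix.transpose_map, ← Matrix.map_mul, ← Matrix.map_mul, a]
    · have : (M.map (algebraMap ℚ ℂ)).det = algebraMap ℚ ℂ M.det :=
        (RingHom.map_det _ _).symm
      rw [this, b, map_one]
    · refine vmap_smap_fix ?_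
      intro w hw
      have h3 : M.map (algebraMap ℚ ℂ) *ᵥ vmap ℂ w = vmap ℂ (M *ᵥ w) := by
        ext i; simp [mulVec, dotProduct, vmap]
      rw [h3, c w hw]
  have h2 := evM_eq_zero_of_mem_SOT hψ' hdet' (nondeg_smap (F := ℂ) hN)
    (𝓘 := (van ℂ SC : Set (MvPolynomial (Fin r × Fin r) ℂ)))
    (fun x hx f hf ↦ der_mem_van_of_tangent hmulC (hbig x hx) hf)
    (fun f hf ↦ mem_van_self.mp hf 1 hone) hM' (MvPolynomial.map (algebraMap ℚ ℂ) f) ?_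
  · rw [evM_map] at h2
    exact (algebraMap ℚ ℂ).injective (by rw [h2, map_zero])
  · show _ ∈ van ℂ SC
    rw [mem_van_self]
    rintro _ ⟨g, hg, rfl⟩
    rw [evM_map, hf g hg, map_zero]

/-- `HG-15`: `ℓ`-adic groups which are close to an integral group with big tangent space. -/
theorem group_main {ψ : Matrix (Fin r) (Fin r) ℤ} {N : Submodule ℚ (Fin r → ℚ)}
    (hψ : ψᵀ = ψ) (hdet : ψ.det ≠ 0)
    (hN : ∀ v ∈ N, (∀ w ∈ N, bil (ψ.map (Int.cast : ℤ → ℚ)) v w = 0) → v = 0)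
    (h4 : finrank ℚ (orthS (ψ.map (Int.cast : ℤ → ℚ)) N) ≠ 4)
    {Γ : Set (Matrix (Fin r) (Fin r) ℤ)} (h1 : 1 ∈ Γ) (hmul : ∀ γ ∈ Γ, ∀ γ' ∈ Γ, γ * γ' ∈ Γ)
    (hisom : ∀ γ ∈ Γ, γᵀ * ψ * γ = ψ) (hfix : ∀ γ ∈ Γ, ∀ v ∈ N, γ.map (Int.cast : ℤ → ℚ) *ᵥ v = v)
    (hbig : ∀ x ∈ soT (ψ.map (Int.cast : ℤ → ℂ)) (smap ℂ N : Set (Fin r → ℂ)),
      x ∈ Helper79.HH.tangent ((fun γ : Matrix (Fin r) (Fin r) ℤ => γ.map (Int.cast : ℤ → ℂ)) '' Γ))
    (ℓ : ℕ) [Fact ℓ.Prime] :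
    ∃ k : ℕ, ∀ G : Subgroup (GL (Fin r) ℤ_[ℓ]),
      (∀ g ∈ G, (g : Matrix (Fin r) (Fin r) ℤ_[ℓ])ᵀ * ψ.map (Int.cast : ℤ → ℤ_[ℓ]) * g =
        ψ.map (Int.cast : ℤ → ℤ_[ℓ])) →
      (∀ g ∈ G.map (Matrix.GeneralLinearGroup.map (algebraMap ℤ_[ℓ] ℚ_[ℓ])), ∀ v ∈ smap ℚ_[ℓ] N,
        (g : Matrix (Fin r) (Fin r) ℚ_[ℓ]) *ᵥ v = v) →
      (∀ γ ∈ Γ, ∃ g ∈ G, ∀ i j, PadicInt.toZModPow k ((g : Matrix (Fin r) (Fin r) ℤ_[ℓ]) i j) =
        ((γ i j : ℤ) : ZMod (ℓ ^ k))) →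
      ∀ G' : Subgroup (GL (Fin r) ℤ_[ℓ]), G' ≤ G → (G'.subgroupOf G).FiniteIndex →
        (∀ g ∈ G', (g : Matrix (Fin r) (Fin r) ℤ_[ℓ]).det = 1) →
        ∀ f ∈ van ℚ_[ℓ] (mats (G'.map (Matrix.GeneralLinearGroup.map (algebraMap ℤ_[ℓ] ℚ_[ℓ])))),
          ∀ M ∈ SOT (ψ.map (Int.cast : ℤ → ℚ_[ℓ])) (smap ℚ_[ℓ] N : Set (Fin r → ℚ_[ℓ])),
            evM M f = 0 := by
  classical
  set ψQ : Matrix (Fin r) (Fin r) ℚ := ψ.map (Int.cast : ℤ → ℚ) with hψQ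
  have hcast : ∀ {F : Type} [Field F] [CharZero F] [Algebra ℚ F],
      ψQ.map (algebraMap ℚ F) = ψ.map (Int.cast : ℤ → F) := by
    intro F _ _ _
    ext i j
    simp [hψQ]
  have hψQ' : ψQᵀ = ψQ := by rw [hψQ, ← Matrix.transpose_map, hψ]
  have hdetQ : ψQ.det ≠ 0 := by
    have : ψQ.det = ((ψ.det : ℤ) : ℚ) := (RingHom.map_det (Int.castRingHom ℚ) ψ).symm
    rw [this]
    exact_mod_cast hdet
  -- the matrices over `ℚ`
  set S : Set (Matrix (Fin r) (Fin r) ℚ) :=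
    (fun γ : Matrix (Fin r) (Fin r) ℤ => γ.map (Int.cast : ℤ → ℚ)) '' Γ with hS
  have hmulmap : ∀ a b : Matrix (Fin r) (Fin r) ℤ, (a * b).map (Int.cast : ℤ → ℚ) =
      a.map (Int.cast : ℤ → ℚ) * b.map (Int.cast : ℤ → ℚ) := fun a b ↦
    Matrix.map_mul (f := Int.castRingHom ℚ)
  have hdense : ∀ f ∈ van ℚ S, f ∈ van ℚ (SOT ψQ (N : Set (Fin r → ℚ))) := by
    refine dense_of_tangent hψQ' hdetQ hN ?_ ?_ ?_
    · exact ⟨1, h1, Matrix.map_one _ Int.cast_zero Int.cast_one⟩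
    · rintro _ ⟨g, hg, rfl⟩ _ ⟨h, hh, rfl⟩
      exact ⟨g * h, hmul g hg h hh, hmulmap g h⟩
    · intro x hx
      rw [hcast] at hx
      have h2 := hbig x hx
      have h3 : ((fun γ : Matrix (Fin r) (Fin r) ℚ => γ.map (algebraMap ℚ ℂ)) '' S) =
          ((fun γ : Matrix (Fin r) (Fin r) ℤ => γ.map (Int.cast : ℤ → ℂ)) '' Γ) := by
        rw [hS, Set.image_image]
        refine Set.image_congr fun γ _ ↦ ?_
        ext i j
        simp
      rw [h3]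
      exact h2
  -- the group generated by `Γ`
  have hunit : ∀ γ ∈ Γ, ∃ u : GL (Fin r) ℤ, (u : Matrix (Fin r) (Fin r) ℤ) = γ := by
    intro γ hγ
    have h2 : IsUnit γ.det := by
      have h3 := congrArg Matrix.det (hisom γ hγ)
      rw [det_mul, det_mul, det_transpose] at h3
      have h4 : ψ.det * (γ.det * γ.det - 1) = 0 := by linear_combination h3
      rcases mul_eq_zero.mp h4 with h5 | h5
      · exact absurd h5 hdet
      · exact IsUnit.of_mul_eq_one γ.det (by linear_combination h5)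
    exact ⟨Matrix.nonsingInvUnit γ h2, rfl⟩
  set U : Set (GL (Fin r) ℤ) := {u | (u : Matrix (Fin r) (Fin r) ℤ) ∈ Γ} with hU
  set Γg : Subgroup (GL (Fin r) ℤ) := Subgroup.closure U with hΓg
  have hΓ : ∀ γ ∈ Γg, (toQ γ)ᵀ * ψQ * toQ γ = ψQ ∧ ∀ w ∈ N, toQ γ *ᵥ w = w := by
    intro γ hγ
    induction hγ using Subgroup.closure_induction with
    | mem u hu =>
      refine ⟨?_, fun w hw ↦ hfix _ hu w hw⟩
      have h2 := hisom _ hu
      have h3 := congrArg (fun A : Matrix (Fin r) (Fin r) ℤ ↦ A.map (Int.cast : ℤ → ℚ)) h2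
      simp only [hmulmap, Matrix.transpose_map] at h3
      exact h3
    | one =>
      rw [toQ_one]
      exact ⟨by simp, fun w _ ↦ one_mulVec w⟩
    | mul a b _ _ ha hb =>
      rw [toQ_mul]
      refine ⟨?_, fun w hw ↦ ?_⟩
      · rw [transpose_mul]
        calc (toQ b)ᵀ * (toQ a)ᵀ * ψQ * (toQ a * toQ b)
            = (toQ b)ᵀ * ((toQ a)ᵀ * ψQ * toQ a) * toQ b := by simp only [Matrix.mul_assoc]
          _ = ψQ := by rw [ha.1, hb.1]
      · rw [← mulVec_mulVec, hb.2 w hw, ha.2 w hw]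
    | inv a _ ha =>
      have h2 : toQ a * toQ a⁻¹ = 1 := by rw [← toQ_mul, mul_inv_cancel, toQ_one]
      have h3 : toQ a⁻¹ * toQ a = 1 := by rw [← toQ_mul, inv_mul_cancel, toQ_one]
      refine ⟨?_, fun w hw ↦ ?_⟩
      · calc (toQ a⁻¹)ᵀ * ψQ * toQ a⁻¹
            = (toQ a⁻¹)ᵀ * ((toQ a)ᵀ * ψQ * toQ a) * toQ a⁻¹ := by rw [ha.1]
          _ = (toQ a * toQ a⁻¹)ᵀ * ψQ * (toQ a * toQ a⁻¹) := by
            rw [transpose_mul]; simp only [Matrix.mul_assoc]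
          _ = ψQ := by rw [h2]; simp
      · conv_lhs => rw [← ha.2 w hw]
        rw [mulVec_mulVec, h3, one_mulVec]
  have hdense' : ∀ f ∈ van ℚ (toQ '' (Γg : Set (GL (Fin r) ℤ))),
      f ∈ van ℚ (SOT ψQ (N : Set (Fin r → ℚ))) := by
    intro f hf
    apply hdense
    rw [mem_van_self] at hf ⊢
    rintro _ ⟨γ, hγ, rfl⟩
    obtain ⟨u, hu⟩ := hunit γ hγ
    have h2 := hf (toQ u) ⟨u, Subgroup.subset_closure (by show _ ∈ Γ; rw [hu]; exact hγ),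
      rfl⟩
    rw [toQ, hu] at h2
    exact h2
  obtain ⟨k, hk⟩ := main_isom hψQ' hdetQ hN h4 hΓ hdense' ℓ
  refine ⟨k, ?_⟩
  intro G hG1 hG2 hG3 G' hG'le hG'fi hG'det
  have hfixco : ∀ g ∈ G, ∀ w ∈ smap ℚ_[ℓ] N, co (g : Matrix (Fin r) (Fin r) ℤ_[ℓ]) *ᵥ w = w := by
    intro g hg w hw
    exact hG2 _ ⟨g, hg, rfl⟩ w hw
  have hisomco : ∀ g ∈ G, (co (g : Matrix (Fin r) (Fin r) ℤ_[ℓ]))ᵀ * ψQ.map (algebraMap ℚ ℚ_[ℓ]) *
        co (g : Matrix (Fin r) (Fin r) ℤ_[ℓ]) = ψQ.map (algebraMap ℚ ℚ_[ℓ]) := by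
    intro g hg
    have h2 := congrArg co (hG1 g hg)
    rw [co_mul, co_mul] at h2
    have h3 : co (ψ.map (Int.cast : ℤ → ℤ_[ℓ])) = ψQ.map (algebraMap ℚ ℚ_[ℓ]) := by
      ext i j
      simp [co, hψQ]
    rw [h3] at h2
    exact h2
  have hmain := hk k le_rfl G (fun g hg ↦ ⟨hisomco g hg, hfixco g hg⟩) (by
    intro γ hγ
    induction hγ using Subgroup.closure_induction with
    | mem u hu =>
      obtain ⟨g, hg, h2⟩ := hG3 _ hu
      refine ⟨g, hg, ?_⟩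
      ext i j
      exact h2 i j
    | one =>
      refine ⟨1, G.one_mem, ?_⟩
      rw [Units.val_one, Units.val_one, Matrix.map_one _ (map_zero _) (map_one _),
        Matrix.map_one _ Int.cast_zero Int.cast_one]
    | mul a b _ _ ha hb =>
      obtain ⟨g, hg, h2⟩ := ha
      obtain ⟨g', hg', h3⟩ := hb
      refine ⟨g * g', G.mul_mem hg hg', ?_⟩
      rw [Units.val_mul, Matrix.map_mul, h2, h3, Units.val_mul]
      exact (Matrix.map_mul (f := Int.castRingHom (ZMod (ℓ ^ k)))).symm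
    | inv a _ ha =>
      obtain ⟨g, hg, h2⟩ := ha
      exact ⟨g⁻¹, G.inv_mem hg, congr_inv h2⟩)
  obtain ⟨-, hvan⟩ := hmain
  -- the group `G'` has finite index in `detOne G`
  have hle1 : G' ≤ detOne G := fun g hg ↦ ⟨hG'le hg, hG'det g hg⟩
  have hle2 : detOne G ≤ G := fun g hg ↦ hg.1
  have hrel : G'.relIndex (detOne G) ≠ 0 := by
    intro h
    exact hG'fi.index_ne_zero (Subgroup.relIndex_eq_zero_of_le_right hle2 h)
  have hinj : Function.Injective (Matrix.GeneralLinearGroup.map (n := Fin r)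
      (algebraMap ℤ_[ℓ] ℚ_[ℓ])) := by
    intro a b hab
    have h2 := congrArg (fun u : GL (Fin r) ℚ_[ℓ] ↦ (u : Matrix (Fin r) (Fin r) ℚ_[ℓ])) hab
    ext i j
    have h3 := congrFun (congrFun h2 i) j
    exact (FaithfulSMul.algebraMap_injective ℤ_[ℓ] ℚ_[ℓ]) h3
  have hfi2 : ((gal G').subgroupOf (gal (detOne G))).FiniteIndex := by
    constructor
    have h2 := Subgroup.relIndex_map_map_of_injective G' (detOne G) hinj
    change (gal G').relIndex (gal (detOne G)) ≠ 0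
    rw [h2]
    exact hrel
  have hψ' : (ψQ.map (algebraMap ℚ ℚ_[ℓ]))ᵀ = ψQ.map (algebraMap ℚ ℚ_[ℓ]) := by
    rw [← Matrix.transpose_map, hψQ']
  have hdet' : (ψQ.map (algebraMap ℚ ℚ_[ℓ])).det ≠ 0 := by
    have : (ψQ.map (algebraMap ℚ ℚ_[ℓ])).det = algebraMap ℚ ℚ_[ℓ] ψQ.det :=
      (RingHom.map_det _ _).symm
    rw [this]
    simpa using hdetQ
  have h4' : finrank ℚ_[ℓ] (orthS (ψQ.map (algebraMap ℚ ℚ_[ℓ])) (smap ℚ_[ℓ] N)) ≠ 4 := by
    rw [orthS_smap, finrank_smap]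
    exact h4
  have hfinal := dense_of_finite_index hψ' hdet' (nondeg_smap (F := ℚ_[ℓ]) hN) h4'
    (Γ := gal (detOne G)) (Γ' := gal G') (Subgroup.map_mono hle1) hfi2 (by
      intro a ha
      obtain ⟨g, hg, h2⟩ := ha
      rw [← h2]
      refine ⟨hisomco g hg.1, ?_, hfixco g hg.1⟩
      have h3 : (co (g : Matrix (Fin r) (Fin r) ℤ_[ℓ])).det =
          algebraMap ℤ_[ℓ] ℚ_[ℓ] (g : Matrix (Fin r) (Fin r) ℤ_[ℓ]).det :=
        (RingHom.map_det _ _).symm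
      change (co (g : Matrix (Fin r) (Fin r) ℤ_[ℓ])).det = 1
      rw [h3, hg.2, map_one]) (fun f hf ↦ mem_van_self.mpr (hvan f hf))
  intro f hf M hM
  have h5 := mem_van_self.mp (hfinal f hf) M
  rw [hcast] at h5
  exact h5 hM

end Pool.Agent.Helper46.GG
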